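import Pool.Graph.R_pool_sql_team_seeded_b0a926ef.R942.PR.Main

/-!
# Fibre products of elliptic surfaces with sections of prime order: definitions
-/

set_option autoImplicit false

namespace Pool.Agent.H84.FP

open Polynomial Module Pool.Agent.R942.ES

section

variable {κ : Type} [Field κ]

/-- The fibre over the point `t` of the projective line over `L` is singular. -/
def Bad (S : Surface κ) (L : Type) [Field L] [Algebra κ L] (t : Option L) : Prop :=
  (S.fibre L t).Δ = 0

/-- The number `|L|` minus the number of affine points of the fibre over `t`: the trace of the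
Frobenius on the first cohomology of the fibre if it is smooth, and `1` or `-1` if it has a node, with
tangents that are rational or not. -/
noncomputable def tr (S : Surface κ) (L : Type) [Field L] [Fintype L] [Algebra κ L]
    (t : Option L) : ℤ := (Fintype.card L : ℤ) - (cnt (S.fibre L t) : ℤ)

variable {E W : Type} [Field E] [AddCommGroup W] [Module E W]

open Classical in
/-- `W = H¹(P¹, j_* (R¹ π₁ ⊗ R¹ π₂))` for two surfaces `π₁ : S₁ → P¹`, `π₂ : S₂ → P¹` whose generic
fibres are not isogenous, even over the algebraic closure of `κ`; `Φ` is the Frobenius.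

* `lefschetz`: the trace formula. The trace on the invariants of the inertia group at a point with
  two nodal fibres is `tr S₁ tr S₂ (1 + |L|)`, and `tr S₁ tr S₂` if one fibre is smooth.
* `dimension`: the formula of Grothendieck, Ogg and Shafarevich. The inertia invariants have
  codimension two in all cases, and `H⁰ = H² = 0`. -/
structure IsTensor [Fintype κ] (S₁ S₂ : Surface κ) (Φ : Module.End E W) : Prop where
  lefschetz : ∀ (L : Type) [Field L] [Fintype L] [Algebra κ L],
    LinearMap.trace E W (Φ ^ finrank κ L) = ((-∑ t : Option L, tr S₁ L t * tr S₂ L t *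
      (if Bad S₁ L t ∧ Bad S₂ L t then 1 + (Fintype.card L : ℤ) else 1) : ℤ) : E)
  dimension : finrank E W + 8 =
    2 * {t : Option (AlgebraicClosure κ) | Bad S₁ _ t ∨ Bad S₂ _ t}.ncard

open Classical in
/-- `W = H¹(P¹, j_* Sym² R¹ π)` for the surface `π : S → P¹`; `Φ` is the Frobenius.

* `lefschetz`: the trace formula. The trace of the symmetric square is `a ^ 2 - |L|` for a smooth
  fibre with trace `a`, and the trace on the inertia invariants is `1` for a node.
* `dimension`: the formula of Grothendieck, Ogg and Shafarevich. -/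
structure IsSymSquare [Fintype κ] (S : Surface κ) (Φ : Module.End E W) : Prop where
  lefschetz : ∀ (L : Type) [Field L] [Fintype L] [Algebra κ L],
    LinearMap.trace E W (Φ ^ finrank κ L) = ((-∑ t : Option L,
      (if Bad S L t then 1 else tr S L t ^ 2 - (Fintype.card L : ℤ)) : ℤ) : E)
  dimension : finrank E W + 6 = 2 * {t : Option (AlgebraicClosure κ) | Bad S _ t}.ncard

/-- `d` is the multiset of the degrees of the closed points of the projective line over which one of
the fibres of `S₁` and `S₂` is singular. -/
structure IsDegrees [Fintype κ] (S₁ S₂ : Surface κ) (d : Multiset ℕ) : Prop where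
  pos : ∀ n ∈ d, 1 ≤ n
  points : ∀ (L : Type) [Field L] [Fintype L] [Algebra κ L],
    {t : Option L | Bad S₁ L t ∨ Bad S₂ L t}.ncard =
      (d.map fun n => if n ∣ finrank κ L then n else 0).sum
  geometric : {t : Option (AlgebraicClosure κ) | Bad S₁ _ t ∨ Bad S₂ _ t}.ncard = d.sum

end

/-- `R` is the polynomial
`∏ (1 - (q T) ^ n) (1 - (q² T) ^ n) / ((1 - T) (1 - q T)ᵏ (1 - q² T)ᵏ (1 - q³ T))`
over the field with `ℓ` elements, the product over the degrees `n` in `d`. -/
def IsReduction (q ℓ k : ℕ) (d : Multiset ℕ) (R : (ZMod ℓ)[X]) : Prop :=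
  R * ((1 - X) * (1 - (q : (ZMod ℓ)[X]) * X) ^ k * (1 - (q : (ZMod ℓ)[X]) ^ 2 * X) ^ k *
      (1 - (q : (ZMod ℓ)[X]) ^ 3 * X)) =
    (d.map fun n => (1 - ((q : (ZMod ℓ)[X]) * X) ^ n) *
      (1 - ((q : (ZMod ℓ)[X]) ^ 2 * X) ^ n)).prod

/-- Explicit conditions on the degrees `d`:

* `ℓ` is odd, `q ≡ -1` modulo `ℓ`, and `d` consists of `k + 1` or `k + 2` odd, pairwise coprime
  numbers, prime to `ℓ`, or
* `ℓ` is odd, `q² ≡ -1` modulo `ℓ`, and `d` consists of `k` or `k + 1` numbers, one or two of them
  twice odd numbers and the other ones odd, where the odd parts are pairwise coprime and prime to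
  `ℓ`. -/
def IsAdmissible (q ℓ k : ℕ) (d : Multiset ℕ) : Prop :=
  (ℓ ≠ 2 ∧ ℓ ∣ q + 1 ∧ IsSpread ℓ d ∧ k + 1 ≤ d.card ∧ d.card ≤ k + 2) ∨
  (ℓ ≠ 2 ∧ ℓ ∣ q ^ 2 + 1 ∧ ∃ a c : Multiset ℕ, d = a + c.map (fun n => 2 * n) ∧
    IsSpread ℓ (a + c) ∧ 1 ≤ c.card ∧ c.card ≤ 2 ∧ k ≤ d.card ∧ d.card ≤ k + 1)

section

variable {E : Type} [Field E]

/-- `F` is the endomorphism induced by `G` on a quotient (for instance, `G` in other coordinates). -/
def IsInduced {V V' : Type} [AddCommGroup V] [Module E V] [AddCommGroup V'] [Module E V']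
    (F : Module.End E V) (G : Module.End E V') : Prop :=
  ∃ p : V' →ₗ[E] V, Function.Surjective p ∧ ∀ x, p (G x) = F (p x)

/-- The cohomology groups `H r` of a smooth projective threefold fibred over the projective line, the
fibre product of two elliptic surfaces blown up in its nodes, with the Frobenius `F r`:

* `H 2` is the sum of a space spanned by classes of divisors, multiplied by `q` and permuted by the
  Frobenius, and of the parts `W₁` and `W₂` of the second cohomology of the two surfaces that are
  orthogonal to the zero section and to the components of the fibres;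
* `H 3` is the sum of `W` and of a space on which the Frobenius is semisimple by Weil: it is spanned
  by the first cohomology of the smooth fibres over the points where the other fibre is singular,
  tensored with the classes of the components of that fibre (zero if the two surfaces are equal);
* `H 4` is dual to `H 2`;
* `H 0` and `H 6` have dimension one and the other groups are zero. -/
structure IsThreefold (q : ℕ) {W₁ W₂ W : Type} [AddCommGroup W₁] [Module E W₁] [AddCommGroup W₂]
    [Module E W₂] [AddCommGroup W] [Module E W] (Φ₁ : Module.End E W₁) (Φ₂ : Module.End E W₂)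
    (Φ : Module.End E W) (H : ℕ → Type) [∀ r, AddCommGroup (H r)] [∀ r, Module E (H r)]
    (F : ∀ r, Module.End E (H r)) : Prop where
  two : ∃ (K : Type) (_ : AddCommGroup K) (_ : Module E K) (_ : FiniteDimensional E K)
    (Ψ : Module.End E K), IsPermuted q Ψ ∧ IsInduced (F 2) (total Ψ (total Φ₁ Φ₂))
  three : ∃ (K : Type) (_ : AddCommGroup K) (_ : Module E K) (_ : FiniteDimensional E K)
    (Ψ : Module.End E K), Ψ.IsSemisimple ∧ IsInduced (F 3) (total Ψ Φ)
  four : ∃ (K : Type) (_ : AddCommGroup K) (_ : Module E K) (_ : FiniteDimensional E K)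
    (Ψ : Module.End E K), IsPermuted (q ^ 2) Ψ ∧
      IsInduced (F 4) (total Ψ (total ((q : E) • Φ₁) ((q : E) • Φ₂)))
  other : ∀ r, r ≠ 2 → r ≠ 3 → r ≠ 4 → finrank E (H r) ≤ 1

end

end Pool.Agent.H84.FP
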