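import Pool.Agent.H84.FP.Trace

/-!
# Explicit conditions on the degrees
-/

set_option autoImplicit false

namespace Pool.Agent.H84.FP

open Polynomial Module
open Pool.Agent.R942.ES (fac mult mult_mul mult_fac fac_ne_zero filter_le_one fac_dvd_pow dvd_fac fac_add
  mult_eq_of_dvd neg_one_ne two_ne IsSpread)

section

variable {ℓ : ℕ} [hℓ : Fact ℓ.Prime]


lemma squarefree_of_mult {R : (ZMod ℓ)[X]} (hR : R ≠ 0)
    (h : ∀ y : AlgebraicClosure (ZMod ℓ), mult R y ≤ 1) : Squarefree R := by
  classical
  have h1 := (algebraMap (ZMod ℓ) (AlgebraicClosure (ZMod ℓ))).injective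
  have h2 : R.map (algebraMap (ZMod ℓ) (AlgebraicClosure (ZMod ℓ))) ≠ 0 :=
    (Polynomial.map_ne_zero_iff h1).2 hR
  have h3 : (R.map (algebraMap (ZMod ℓ) (AlgebraicClosure (ZMod ℓ)))).roots.Nodup := by
    rw [Multiset.nodup_iff_count_le_one]
    intro y
    rw [count_roots]
    exact h y
  have h4 := (nodup_roots_iff_of_splits h2 (IsAlgClosed.splits _)).1 h3
  exact (Polynomial.separable_map _).1 h4 |>.squarefree

lemma card_filter_add_le {p₁ p₂ p : ℕ → Prop} [DecidablePred p₁] [DecidablePred p₂]
    [DecidablePred p] {d : Multiset ℕ} (h : ∀ n ∈ d, ¬ (p₁ n ∧ p₂ n))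
    (h' : ∀ n ∈ d, p₁ n ∨ p₂ n → p n) :
    (d.filter p₁).card + (d.filter p₂).card ≤ (d.filter p).card := by
  induction d using Multiset.induction_on with
  | empty => simp
  | cons n d ih =>
    have ih' := ih (fun m hm => h m (Multiset.mem_cons_of_mem hm))
      (fun m hm => h' m (Multiset.mem_cons_of_mem hm))
    have h1 := h n (Multiset.mem_cons_self n d)
    have h2 := h' n (Multiset.mem_cons_self n d)
    rw [Multiset.filter_cons, Multiset.filter_cons, Multiset.filter_cons, Multiset.card_add,
      Multiset.card_add, Multiset.card_add]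
    by_cases a : p₁ n <;> by_cases b : p₂ n
    · exact absurd ⟨a, b⟩ h1
    · rw [if_pos a, if_neg b, if_pos (h2 (Or.inl a))]
      simp only [Multiset.card_singleton, Multiset.card_zero]
      omega
    · rw [if_neg a, if_pos b, if_pos (h2 (Or.inr b))]
      simp only [Multiset.card_singleton, Multiset.card_zero]
      omega
    · rw [if_neg a, if_neg b]
      simp only [Multiset.card_zero]
      omega

lemma spread_pos {a : Multiset ℕ} (h : IsSpread ℓ a) : ∀ n ∈ a, 1 ≤ n := by
  intro n hn
  have := (h.1 n hn).1.pos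
  omega

open Classical in
/-- The multiplicity of a root of the denominator. -/
lemma mult_den' (k : ℕ) {c : ZMod ℓ} (hc : c ≠ 0) (y : AlgebraicClosure (ZMod ℓ)) :
    mult (den' k c) y = (if y = 1 then 1 else 0) +
      k * (if algebraMap (ZMod ℓ) (AlgebraicClosure (ZMod ℓ)) c * y = 1 then 1 else 0) +
      k * (if algebraMap (ZMod ℓ) (AlgebraicClosure (ZMod ℓ)) c ^ 2 * y = 1 then 1 else 0) +
      (if algebraMap (ZMod ℓ) (AlgebraicClosure (ZMod ℓ)) c ^ 3 * y = 1 then 1 else 0) := by
  have h0 : ∀ d ∈ ({1} : Multiset ℕ), ¬ ℓ ∣ d := by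
    intro d hd
    rw [Multiset.mem_singleton.1 hd]
    exact hℓ.out.one_lt.ne' ∘ Nat.dvd_one.1
  have h1 : ∀ x : ZMod ℓ, fac x {1} ≠ 0 := fun x => fac_ne_zero x (by simp)
  have h2 : ∀ x : ZMod ℓ, x ≠ 0 → mult (fac x {1}) y =
      if algebraMap (ZMod ℓ) (AlgebraicClosure (ZMod ℓ)) x * y = 1 then 1 else 0 := by
    intro x hx
    rw [mult_fac hx h0, Multiset.filter_singleton]
    simp only [pow_one]
    split_ifs
    · rfl
    · rfl
  have h3 : ∀ (P : (ZMod ℓ)[X]) (n : ℕ), P ≠ 0 → mult (P ^ n) y = n * mult P y := by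
    intro P n hP
    induction n with
    | zero =>
      rw [pow_zero, zero_mul, mult, Polynomial.map_one]
      apply rootMultiplicity_eq_zero
      rw [IsRoot.def, eval_one]
      exact one_ne_zero
    | succ n ih =>
      rw [pow_succ, mult_mul (pow_ne_zero n hP) hP, ih]
      ring
  rw [den', mult_mul (mul_ne_zero (mul_ne_zero (h1 _) (pow_ne_zero k (h1 _)))
    (pow_ne_zero k (h1 _))) (h1 _),
    mult_mul (mul_ne_zero (h1 _) (pow_ne_zero k (h1 _))) (pow_ne_zero k (h1 _)),
    mult_mul (h1 _) (pow_ne_zero k (h1 _)), h3 _ _ (h1 _), h3 _ _ (h1 _), h2 1 one_ne_zero,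
    h2 c hc, h2 (c ^ 2) (pow_ne_zero 2 hc), h2 (c ^ 3) (pow_ne_zero 3 hc), map_one, one_mul,
    map_pow, map_pow]

/-- The squarefree reduction for admissible degrees. -/
theorem exists_reduction {q k : ℕ} (hq : (q : ZMod ℓ) ≠ 0) (hk : 1 ≤ k) {d : Multiset ℕ}
    (h : IsAdmissible q ℓ k d) :
    ∃ R : (ZMod ℓ)[X], IsReduction q ℓ k d R ∧ Squarefree R := by
  classical
  rcases h with ⟨h2, hq1, hs, hk1, hk2⟩ | ⟨h2, hq1, a, c, hd, hs, hc1, hc2, hk1, hk2⟩
  · -- `q = -1`
    have hqc : (q : ZMod ℓ) = -1 := by
      have h3 := (ZMod.natCast_eq_zero_iff _ _).2 hq1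
      push_cast at h3
      linear_combination h3
    have hden : den' k (q : ZMod ℓ) = fac (q : ZMod ℓ) {1} ^ (k + 1) * fac 1 {1} ^ (k + 1) := by
      have h3 : (q : ZMod ℓ) ^ 2 = 1 := by
        rw [hqc]
        ring
      have h4 : (q : ZMod ℓ) ^ 3 = q := by
        rw [hqc]
        ring
      rw [den', h3, h4]
      ring
    have hq2 : (q : ZMod ℓ) ^ 2 = 1 := by
      rw [hqc]
      ring
    obtain ⟨R, hR⟩ := mul_dvd_mul (fac_dvd_pow (q : ZMod ℓ) hk1) (fac_dvd_pow (1 : ZMod ℓ) hk1)
    have hR' : R * den' k (q : ZMod ℓ) = fac (q : ZMod ℓ) d * fac ((q : ZMod ℓ) ^ 2) d := by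
      rw [hq2, hR, hden, mul_comm]
    have hP : fac (q : ZMod ℓ) d * fac ((q : ZMod ℓ) ^ 2) d ≠ 0 :=
      mul_ne_zero (fac_ne_zero _ (spread_pos hs)) (fac_ne_zero _ (spread_pos hs))
    have hR0 : R ≠ 0 := by
      rintro rfl
      rw [zero_mul] at hR'
      exact hP hR'.symm
    refine ⟨R, (isReduction_iff q k d R).2 hR', squarefree_of_mult hR0 fun y => ?_⟩
    have h6 := mult_eq_of_dvd hR' hP y
    have hmap : algebraMap (ZMod ℓ) (AlgebraicClosure (ZMod ℓ)) (q : ZMod ℓ) = -1 := by
      rw [hqc, map_neg, map_one]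
    rw [mult_den' k hq, mult_mul (fac_ne_zero _ (spread_pos hs)) (fac_ne_zero _ (spread_pos hs)),
      mult_fac hq (fun n hn => (hs.1 n hn).2),
      mult_fac (pow_ne_zero 2 hq) (fun n hn => (hs.1 n hn).2), map_pow, hmap] at h6
    have e2 : (-1 : AlgebraicClosure (ZMod ℓ)) ^ 2 = 1 := by ring
    have e3 : (-1 : AlgebraicClosure (ZMod ℓ)) ^ 3 = -1 := by ring
    rw [e2, e3] at h6
    simp only [neg_mul, one_mul] at h6
    by_cases hy1 : y = 1
    · have ha : (d.filter fun n => (-y) ^ n = 1) = 0 := by
        rw [Multiset.filter_eq_nil]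
        intro n hn h7
        rw [hy1, (hs.1 n hn).1.neg_pow, one_pow] at h7
        exact neg_one_ne h2 h7
      have hca := Multiset.card_le_card (Multiset.filter_le (fun n => y ^ n = 1) d)
      have e4 : ¬ (-y = 1) := by
        rw [hy1]
        exact neg_one_ne h2
      rw [ha, Multiset.card_zero, if_pos hy1, if_neg e4] at h6
      omega
    · by_cases hy2 : -y = 1
      · have hb : (d.filter fun n => y ^ n = 1) = 0 := by
          rw [Multiset.filter_eq_nil]
          intro n hn h7
          have h8 : y = -1 := by rw [← hy2, neg_neg]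
          rw [h8, (hs.1 n hn).1.neg_one_pow] at h7
          exact neg_one_ne h2 h7
        have hca := Multiset.card_le_card (Multiset.filter_le (fun n => (-y) ^ n = 1) d)
        rw [hb, Multiset.card_zero, if_neg hy1, if_pos hy2] at h6
        omega
      · rw [if_neg hy1, if_neg hy2] at h6
        have hz : y ^ 2 ≠ 1 := by
          intro h7
          rw [pow_two] at h7
          rcases mul_self_eq_one_iff.1 h7 with h8 | h8
          · exact hy1 h8
          · apply hy2
            rw [h8]
            ring
        have h7 := filter_le_one hz hs.2 (fun n => (y ^ 2) ^ n = 1) fun n hn => hn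
        have h8 := card_filter_add_le (p₁ := fun n => (-y) ^ n = 1) (p₂ := fun n => y ^ n = 1)
          (p := fun n => (y ^ 2) ^ n = 1) (d := d) (by
            rintro n hn ⟨h9, h10⟩
            rw [(hs.1 n hn).1.neg_pow, h10] at h9
            exact neg_one_ne h2 h9) (by
            intro n hn h9
            rw [← pow_mul, mul_comm, pow_mul]
            rcases h9 with h9 | h9
            · rw [(hs.1 n hn).1.neg_pow] at h9
              have h10 : y ^ n = -1 := by rw [← h9, neg_neg]
              rw [h10]
              ring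
            · rw [h9, one_pow])
        omega
  · -- `q ^ 2 = -1`
    have hqc : (q : ZMod ℓ) ^ 2 = -1 := by
      have h3 := (ZMod.natCast_eq_zero_iff _ _).2 hq1
      push_cast at h3
      linear_combination h3
    have hqk : (q : AlgebraicClosure (ZMod ℓ)) ^ 2 = -1 := by
      have h3 := congrArg (algebraMap (ZMod ℓ) (AlgebraicClosure (ZMod ℓ))) hqc
      rwa [map_pow, map_natCast, map_neg, map_one] at h3
    set i : AlgebraicClosure (ZMod ℓ) := (q : AlgebraicClosure (ZMod ℓ)) with hi
    have hmap : algebraMap (ZMod ℓ) (AlgebraicClosure (ZMod ℓ)) (q : ZMod ℓ) = i := map_natCast _ _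
    have hi0 : i ≠ 0 := by
      intro h3
      rw [h3] at hqk
      have h4 : (1 : AlgebraicClosure (ZMod ℓ)) = 0 := by linear_combination hqk
      exact one_ne_zero h4
    -- the degrees
    have hodd : ∀ n ∈ a + c, Odd n := fun n hn => (hs.1 n hn).1
    have hdpos : ∀ n ∈ d, 1 ≤ n := by
      intro n hn
      rw [hd, Multiset.mem_add, Multiset.mem_map] at hn
      rcases hn with hn | ⟨e, he, rfl⟩
      · exact spread_pos hs n (Multiset.mem_add.2 (Or.inl hn))
      · have := spread_pos hs e (Multiset.mem_add.2 (Or.inr he))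
        omega
    have hdℓ : ∀ n ∈ d, ¬ ℓ ∣ n := by
      intro n hn
      rw [hd, Multiset.mem_add, Multiset.mem_map] at hn
      rcases hn with hn | ⟨e, he, rfl⟩
      · exact (hs.1 n (Multiset.mem_add.2 (Or.inl hn))).2
      · intro h3
        rcases hℓ.out.dvd_mul.1 h3 with h4 | h4
        · exact h2 ((Nat.prime_dvd_prime_iff_eq hℓ.out Nat.prime_two).1 h4)
        · exact (hs.1 e (Multiset.mem_add.2 (Or.inr he))).2 h4
    -- divisibility
    obtain ⟨e, he⟩ := Multiset.card_pos_iff_exists_mem.1 (show 0 < c.card by omega)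
    have hed : 2 * e ∈ d := by
      rw [hd, Multiset.mem_add, Multiset.mem_map]
      exact Or.inr ⟨e, he, rfl⟩
    obtain ⟨d', hd'⟩ := Multiset.exists_cons_of_mem hed
    have hcard : d.card = d'.card + 1 := by rw [hd', Multiset.card_cons]
    have hdvd : ∀ x : ZMod ℓ, fac x {1} ^ k * fac (-x) {1} ∣ fac x d := by
      intro x
      have h3 : fac x d = (1 - C (x ^ (2 * e)) * X ^ (2 * e)) * fac x d' := by
        rw [hd', fac, Multiset.map_cons, Multiset.prod_cons]
        rfl
      have h4 : fac x {1} ^ k * fac (-x) {1} = (fac x {1} * fac (-x) {1}) * fac x {1} ^ (k - 1) := by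
        obtain ⟨j, rfl⟩ := Nat.exists_eq_add_of_le hk
        rw [Nat.add_sub_cancel_left, pow_add, pow_one]
        ring
      rw [h3, h4]
      refine mul_dvd_mul ?_ (fac_dvd_pow x (by omega))
      have h5 : fac x {1} * fac (-x) {1} = 1 - (C x * X) ^ 2 := by
        simp only [fac, Multiset.map_singleton, Multiset.prod_singleton, pow_one, C_neg]
        ring
      rw [h5, C_pow, ← mul_pow, pow_mul]
      exact one_sub_dvd_one_sub_pow _ e
    have hden : den' k (q : ZMod ℓ) = (fac (q : ZMod ℓ) {1} ^ k * fac (-(q : ZMod ℓ)) {1}) *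
        (fac (-1 : ZMod ℓ) {1} ^ k * fac (-(-1 : ZMod ℓ)) {1}) := by
      have h3 : (q : ZMod ℓ) ^ 3 = - q := by
        rw [pow_succ, hqc]
        ring
      rw [den', hqc, h3, neg_neg]
      ring
    obtain ⟨R, hR⟩ := mul_dvd_mul (hdvd (q : ZMod ℓ)) (hdvd (-1))
    have hR' : R * den' k (q : ZMod ℓ) = fac (q : ZMod ℓ) d * fac ((q : ZMod ℓ) ^ 2) d := by
      rw [hqc, hR, hden, mul_comm]
    have hP : fac (q : ZMod ℓ) d * fac ((q : ZMod ℓ) ^ 2) d ≠ 0 :=
      mul_ne_zero (fac_ne_zero _ hdpos) (fac_ne_zero _ hdpos)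
    have hR0 : R ≠ 0 := by
      rintro rfl
      rw [zero_mul] at hR'
      exact hP hR'.symm
    refine ⟨R, (isReduction_iff q k d R).2 hR', squarefree_of_mult hR0 fun y => ?_⟩
    have h6 := mult_eq_of_dvd hR' hP y
    rw [mult_den' k hq, mult_mul (fac_ne_zero _ hdpos) (fac_ne_zero _ hdpos),
      mult_fac hq hdℓ, mult_fac (pow_ne_zero 2 hq) hdℓ, map_pow, hmap] at h6
    have e3 : i ^ 3 = -i := by
      rw [pow_succ, hqk]
      ring
    rw [e3, hqk] at h6
    -- odd powers of the fourth roots of unity
    have hoddpow : ∀ (z : AlgebraicClosure (ZMod ℓ)) (n : ℕ), Odd n → z ^ 2 = -1 → z ^ n ≠ 1 := by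
      intro z n hn hz h7
      obtain ⟨j, rfl⟩ := hn
      rw [pow_succ, pow_mul, hz] at h7
      have h8 : z ^ 2 = 1 := by
        have h9 := congrArg (fun x => x ^ 2) h7
        simp only [one_pow] at h9
        rw [mul_pow, ← pow_mul, mul_comm j 2, pow_mul, neg_one_sq, one_pow, one_mul] at h9
        exact h9
      rw [hz] at h8
      exact neg_one_ne h2 h8
    have hno : ∀ z : AlgebraicClosure (ZMod ℓ), z ^ 2 = -1 → (d.filter fun n => z ^ n = 1) = 0 := by
      intro z hz
      rw [Multiset.filter_eq_nil]
      intro n hn h7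
      rw [hd, Multiset.mem_add, Multiset.mem_map] at hn
      rcases hn with hn | ⟨e, he, rfl⟩
      · exact hoddpow z n (hodd n (Multiset.mem_add.2 (Or.inl hn))) hz h7
      · rw [pow_mul, hz, (hodd e (Multiset.mem_add.2 (Or.inr he))).neg_one_pow] at h7
        exact neg_one_ne h2 h7
    have heven : (d.filter fun n => (-1 : AlgebraicClosure (ZMod ℓ)) ^ n = 1).card ≤ c.card := by
      rw [hd, Multiset.filter_add, Multiset.card_add]
      have h7 : (a.filter fun n => (-1 : AlgebraicClosure (ZMod ℓ)) ^ n = 1) = 0 := by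
        rw [Multiset.filter_eq_nil]
        intro n hn h8
        rw [(hodd n (Multiset.mem_add.2 (Or.inl hn))).neg_one_pow] at h8
        exact neg_one_ne h2 h8
      rw [h7, Multiset.card_zero, zero_add]
      refine (Multiset.card_le_card (Multiset.filter_le _ _)).trans ?_
      rw [Multiset.card_map]
    have hall : ∀ z : AlgebraicClosure (ZMod ℓ), (d.filter fun n => z ^ n = 1).card ≤ d.card :=
      fun z => Multiset.card_le_card (Multiset.filter_le _ _)
    have hii : i * i = -1 := by rw [← pow_two, hqk]
    have hi1 : ∀ z : AlgebraicClosure (ZMod ℓ), z ^ 2 = -1 → z ≠ 1 ∧ z ≠ -1 := by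
      intro z hz
      constructor
      · intro h3
        rw [h3, one_pow] at hz
        exact neg_one_ne h2 hz.symm
      · intro h3
        rw [h3, neg_one_sq] at hz
        exact neg_one_ne h2 hz.symm
    by_cases hy1 : y = 1
    · -- `y = 1`
      subst hy1
      have t1 : ¬ i * 1 = 1 := by
        rw [mul_one]
        exact (hi1 i hqk).1
      have t2 : ¬ (-1 : AlgebraicClosure (ZMod ℓ)) * 1 = 1 := by
        rw [mul_one]
        exact neg_one_ne h2
      have t3 : ¬ -i * 1 = 1 := by
        rw [mul_one]
        exact (hi1 (-i) (by rw [neg_sq, hqk])).1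
      have t4 := hno i hqk
      simp only [mul_one] at h6 t1 t2 t3
      rw [t4, Multiset.card_zero, if_pos trivial, if_neg t1, if_neg t2, if_neg t3] at h6
      omega
    by_cases hy2 : i * y = 1
    · have hy : y = -i := by
        have h7 : y * (i * i) = i := by linear_combination i * hy2
        rw [hii] at h7
        linear_combination -h7
      have t2 : ¬ (-1 : AlgebraicClosure (ZMod ℓ)) * y = 1 := by
        rw [hy]
        have := (hi1 i hqk).1
        simpa using this
      have t3 : ¬ -i * y = 1 := by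
        rw [neg_mul, hy2]
        exact neg_one_ne h2
      have t4 : (d.filter fun n => (-1 * y) ^ n = 1) = 0 := by
        apply hno
        rw [hy]
        linear_combination hqk
      rw [t4, Multiset.card_zero, if_neg hy1, if_pos hy2, if_neg t2, if_neg t3] at h6
      have := hall (i * y)
      omega
    by_cases hy3 : (-1 : AlgebraicClosure (ZMod ℓ)) * y = 1
    · have hy : y = -1 := by linear_combination -hy3
      have t3 : ¬ -i * y = 1 := by
        rw [hy]
        have := (hi1 i hqk).1
        simpa using this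
      have t4 : (d.filter fun n => (i * y) ^ n = 1) = 0 := by
        apply hno
        rw [hy]
        linear_combination hqk
      rw [t4, Multiset.card_zero, if_neg hy1, if_neg hy2, if_pos hy3, if_neg t3] at h6
      have := hall (-1 * y)
      omega
    by_cases hy4 : -i * y = 1
    · have hy : i * y = -1 := by linear_combination -hy4
      have hy' : y = i := by
        have h7 : y * (i * i) = -i := by linear_combination i * hy
        rw [hii] at h7
        linear_combination -h7
      have t4 : (d.filter fun n => (-1 * y) ^ n = 1) = 0 := by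
        apply hno
        rw [hy']
        linear_combination hqk
      rw [t4, Multiset.card_zero, if_neg hy1, if_neg hy2, if_neg hy3, if_pos hy4, hy] at h6
      omega
    · rw [if_neg hy1, if_neg hy2, if_neg hy3, if_neg hy4] at h6
      have hy0 : y ≠ 0 ∨ y = 0 := (em (y = 0)).symm
      have hz : y ^ 4 ≠ 1 := by
        intro h7
        have h8 : (y - 1) * (i * y - 1) * (-1 * y - 1) * (-i * y - 1) = 0 := by
          linear_combination (y ^ 2 - 1) * y ^ 2 * hqk - h7
        rcases mul_eq_zero.1 h8 with h9 | h9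
        · rcases mul_eq_zero.1 h9 with h10 | h10
          · rcases mul_eq_zero.1 h10 with h11 | h11
            · exact hy1 (sub_eq_zero.1 h11)
            · exact hy2 (sub_eq_zero.1 h11)
          · exact hy3 (sub_eq_zero.1 h10)
        · exact hy4 (sub_eq_zero.1 h9)
      have h7 := filter_le_one hz hs.2 (fun n => (y ^ 4) ^ n = 1) fun n hn => hn
      rw [Multiset.filter_add, Multiset.card_add] at h7
      have hi4 : i ^ 4 = 1 := by
        have : i ^ 4 = (i ^ 2) ^ 2 := by ring
        rw [this, hqk]
        ring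
      -- the two parts
      have ha := card_filter_add_le (p₁ := fun n => (i * y) ^ n = 1)
        (p₂ := fun n => (-1 * y) ^ n = 1) (p := fun n => (y ^ 4) ^ n = 1) (d := a) (by
          rintro n hn ⟨h9, h10⟩
          have hn' := hodd n (Multiset.mem_add.2 (Or.inl hn))
          rw [mul_pow] at h9 h10
          rw [hn'.neg_one_pow] at h10
          have h11 : y ^ n = -1 := by linear_combination -h10
          rw [h11] at h9
          have h12 : (-i) ^ n = 1 := by
            rw [hn'.neg_pow]
            linear_combination h9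
          exact hoddpow (-i) n hn' (by rw [neg_sq, hqk]) h12) (by
          intro n hn h9
          have hswap : (y ^ 4) ^ n = (y ^ n) ^ 4 := by rw [← pow_mul, ← pow_mul, mul_comm]
          rw [hswap]
          rcases h9 with h9 | h9
          · have h10 := congrArg (fun x => x ^ 4) h9
            simp only [one_pow] at h10
            rw [mul_pow, mul_pow, ← pow_mul i, mul_comm n 4, pow_mul i, hi4, one_pow, one_mul] at h10
            exact h10
          · have h10 := congrArg (fun x => x ^ 4) h9
            simp only [one_pow] at h10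
            rw [mul_pow, mul_pow, ← pow_mul, mul_comm n 4, pow_mul,
              show (-1 : AlgebraicClosure (ZMod ℓ)) ^ 4 = 1 by ring, one_pow, one_mul] at h10
            exact h10)
      have hc := card_filter_add_le (p₁ := fun n => (i * y) ^ (2 * n) = 1)
        (p₂ := fun n => (-1 * y) ^ (2 * n) = 1) (p := fun n => (y ^ 4) ^ n = 1) (d := c) (by
          rintro n hn ⟨h9, h10⟩
          have hn' := hodd n (Multiset.mem_add.2 (Or.inr hn))
          rw [pow_mul, mul_pow, hqk, neg_one_mul, hn'.neg_pow] at h9
          rw [pow_mul, mul_pow, neg_one_sq, one_mul] at h10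
          rw [h10] at h9
          exact neg_one_ne h2 h9) (by
          intro n hn h9
          have hswap : (y ^ 4) ^ n = ((y ^ 2) ^ n) ^ 2 := by
            rw [← pow_mul, ← pow_mul, ← pow_mul]
            congr 1
            ring
          rw [hswap]
          have hn' := hodd n (Multiset.mem_add.2 (Or.inr hn))
          rcases h9 with h9 | h9
          · rw [pow_mul, mul_pow, hqk, neg_one_mul, hn'.neg_pow] at h9
            have h10 : (y ^ 2) ^ n = -1 := by linear_combination -h9
            rw [h10]
            ring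
          · rw [pow_mul, mul_pow, neg_one_sq, one_mul] at h9
            rw [h9, one_pow])
      have hfil : ∀ z : AlgebraicClosure (ZMod ℓ), (d.filter fun n => z ^ n = 1).card =
          (a.filter fun n => z ^ n = 1).card + (c.filter fun n => z ^ (2 * n) = 1).card := by
        intro z
        rw [hd, Multiset.filter_add, Multiset.card_add, Multiset.filter_map, Multiset.card_map]
        rfl
      rw [hfil, hfil] at h6
      omega

end

end Pool.Agent.H84.FP
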