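import Pool.Agent.H84.FP.Expl

/-!
# The degrees of the bad points, and an explicit family
-/

set_option autoImplicit false

namespace Pool.Agent.H84.FP

open Polynomial Module UniqueFactorizationMonoid
open Pool.Agent.R942.ES hiding IsAdmissible

section

variable {κ : Type} [Field κ] [Fintype κ]

/-- The number of zeros of a form. -/
lemma ncard_value (L : Type) [Field L] [Fintype L] [Algebra κ L] {N : ℕ} {F : κ[X]} (hF : F ≠ 0) :
    {t : Option L | value N F L t = 0}.ncard =
      ((places N F).map fun n => if n ∣ finrank κ L then n else 0).sum := by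
  classical
  have h1 := card_zeros (L := L) (N := N) hF
  rw [← Finset.card_filter] at h1
  rw [Set.ncard_eq_toFinset_card']
  convert h1 using 2
  ext t
  simp

/-- The degrees, for one surface. -/
theorem isDegrees_self {S : Surface κ} (h : HasSection S) : IsDegrees S S (S.a + S.b) := by
  obtain ⟨N, M, F, G, h1⟩ := exists_local h
  have hset : ∀ (L : Type) [Field L] [Algebra κ L], {t : Option L | Bad S L t ∨ Bad S L t} =
      {t : Option L | value N F L t = 0} ∪ {t : Option L | value M G L t = 0} := by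
    intro L _ _
    ext t
    rw [Set.mem_union, Set.mem_ofPred_eq, Set.mem_ofPred_eq, Set.mem_ofPred_eq, or_self]
    exact h1.disc L t
  have hdis : ∀ (L : Type) [Field L] [Algebra κ L], Disjoint {t : Option L | value N F L t = 0}
      {t : Option L | value M G L t = 0} := by
    intro L _ _
    rw [Set.disjoint_left]
    intro t h2 h3
    exact h1.disj L t ⟨h2, h3⟩
  refine ⟨?_, ?_, ?_⟩
  · intro n hn
    rcases Multiset.mem_add.1 hn with hn | hn
    · exact h1.pos_a n hn
    · exact h1.pos_b n hn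
  · intro L _ _ _
    rw [hset, Set.ncard_union_eq (hdis L) (finite_zeros _ _ h1.hF) (finite_zeros _ _ h1.hG),
      ncard_value L h1.hF, ncard_value L h1.hG, h1.ha, h1.hb, Multiset.map_add, Multiset.sum_add]
  · rw [hset, Set.ncard_union_eq (hdis _) (finite_zeros _ _ h1.hF) (finite_zeros _ _ h1.hG),
      ncard_zeros h1.hF, ncard_zeros h1.hG, h1.ha, h1.hb, Multiset.sum_add]

/-! ### The explicit family -/

/-- The surface `y² + (1 - c tᵐ) x y - c tᵐ y = x³ - c tᵐ x²`. -/
noncomputable def fam (m : ℕ) (c : κ) : Surface κ := order5 m (C c * X ^ m) 1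

/-- The polynomial `c² t²ᵐ - 11 c tᵐ - 1`. -/
noncomputable def bad (m : ℕ) (c : κ) : κ[X] := (C c * X ^ m) ^ 2 - 11 * (C c * X ^ m) - 1

variable {m : ℕ} {c : κ}

omit [Fintype κ] in
lemma bad_eq (m : ℕ) (c : κ) : bad m c = C (c ^ 2) * X ^ (2 * m) - C (11 * c) * X ^ m - C 1 := by
  rw [bad, C_pow, C_mul, C_1]
  have : (C (11 : κ) : κ[X]) = 11 := rfl
  rw [this]
  ring

omit [Fintype κ] in
lemma c_ne_zero (hirr : Irreducible (bad m c)) : c ≠ 0 := by
  rintro rfl
  have h1 : bad m (0 : κ) = -1 := by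
    simp [bad]
  rw [h1] at hirr
  exact hirr.not_isUnit isUnit_one.neg

omit [Fintype κ] in
lemma bad_coeff (hm : 0 < m) : (bad m c).coeff (2 * m) = c ^ 2 := by
  rw [bad_eq, coeff_sub, coeff_sub, coeff_C_mul, coeff_C_mul, coeff_X_pow, coeff_X_pow, coeff_C,
    if_pos rfl, if_neg (by omega), if_neg (by omega)]
  ring

omit [Fintype κ] in
lemma bad_natDegree (hc : c ≠ 0) (hm : 0 < m) : (bad m c).natDegree = 2 * m := by
  apply natDegree_eq_of_le_of_coeff_ne_zero
  · rw [bad_eq]
    refine (natDegree_sub_le _ _).trans (max_le ((natDegree_sub_le _ _).trans (max_le ?_ ?_)) ?_)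
    · exact natDegree_C_mul_X_pow_le _ _
    · exact (natDegree_C_mul_X_pow_le _ _).trans (by omega)
    · rw [natDegree_C]
      exact Nat.zero_le _
  · rw [bad_coeff hm]
    exact pow_ne_zero 2 hc

omit [Fintype κ] in
lemma fam_b (m : ℕ) (c : κ) : (C c * X ^ m : κ[X]) ^ 2 - 11 * ((C c * X ^ m) * 1) - 1 ^ 2 = bad m c := by
  rw [bad, mul_one, one_pow]

lemma five_ne (hq : 5 ∣ Fintype.card κ ^ 2 + 1) : (5 : κ) ≠ 0 := by
  intro h
  have h1 : (Fintype.card κ : κ) = 0 := by
    simp
  have h2 : (((Fintype.card κ ^ 2 + 1 : ℕ)) : κ) = 0 := by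
    obtain ⟨j, hj⟩ := hq
    rw [hj]
    push_cast
    rw [h, zero_mul]
  push_cast at h2
  rw [h1] at h2
  simp at h2

omit [Fintype κ] in
lemma fam_u_ne (hc : c ≠ 0) : (C c * X ^ m * 1 : κ[X]) ≠ 0 := by
  rw [mul_one]
  exact mul_ne_zero (C_ne_zero.2 hc) (pow_ne_zero m X_ne_zero)

omit [Fintype κ] in
lemma fam_pair (hc : c ≠ 0) : IsFormPair m m (C c * X ^ m : κ[X]) 1 := by
  refine ⟨natDegree_C_mul_X_pow_le _ _, ?_, isCoprime_one_right, Or.inl ?_⟩
  · rw [natDegree_one]
    exact Nat.zero_le _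
  · rw [coeff_C_mul, coeff_X_pow, if_pos rfl, mul_one]
    exact hc

lemma fam_section (hq : 5 ∣ Fintype.card κ ^ 2 + 1) (hirr : Irreducible (bad m c)) :
    HasSection (fam m c) := by
  have hc := c_ne_zero hirr
  refine HasSection.five m (C c * X ^ m) 1 (five_ne hq) (fam_pair hc) (fam_u_ne hc) ?_
  rw [fam_b]
  exact hirr.ne_zero

lemma fam_local (hq : 5 ∣ Fintype.card κ ^ 2 + 1) (hirr : Irreducible (bad m c)) :
    LocalData (fam m c) (2 * m) (2 * m) (C c * X ^ m * 1) (bad m c) := by
  have hc := c_ne_zero hirr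
  have h1 := local5 m (C c * X ^ m : κ[X]) 1 (five_ne hq) (fam_pair hc) (fam_u_ne hc) (by
    rw [fam_b]
    exact hirr.ne_zero)
  rw [fam_b] at h1
  exact h1

omit [Fintype κ] in
lemma fam_places_a (hc : c ≠ 0) (hm : 0 < m) :
    places (2 * m) (C c * X ^ m * 1 : κ[X]) = {1, 1} := by
  classical
  have h1 : (normalizedFactors (C c * X ^ m * 1 : κ[X])).toFinset = {X} := by
    have h2 : Associated (C c * X ^ m * 1 : κ[X]) (X ^ m) := by
      rw [mul_one]
      exact associated_unit_mul_left _ _ (isUnit_C.2 (IsUnit.mk0 c hc))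
    rw [(associated_iff_normalizedFactors_eq_normalizedFactors (fam_u_ne hc)
      (pow_ne_zero m X_ne_zero)).1 h2, normalizedFactors_pow,
      normalizedFactors_irreducible irreducible_X, monic_X.normalize_eq_self,
      Multiset.nsmul_singleton]
    ext P
    rw [Multiset.mem_toFinset, Multiset.mem_replicate, Finset.mem_singleton]
    exact ⟨fun h => h.2, fun h => ⟨hm.ne', h⟩⟩
  have h3 : (C c * X ^ m * 1 : κ[X]).coeff (2 * m) = 0 := by
    rw [mul_one, coeff_C_mul, coeff_X_pow, if_neg (by omega), mul_zero]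
  have h4 : places (2 * m) (C c * X ^ m * 1 : κ[X]) =
      (normalizedFactors (C c * X ^ m * 1 : κ[X])).toFinset.val.map natDegree +
        if (C c * X ^ m * 1 : κ[X]).coeff (2 * m) = 0 then {1} else 0 := by
    unfold places
    congr!
  rw [h4, h1, if_pos h3]
  simp

omit [Fintype κ] in
lemma fam_places_b (hirr : Irreducible (bad m c)) (hm : 0 < m) :
    places (2 * m) (bad m c) = {2 * m} := by
  classical
  have hc := c_ne_zero hirr
  have h4 : places (2 * m) (bad m c) = (normalizedFactors (bad m c)).toFinset.val.map natDegree +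
        if (bad m c).coeff (2 * m) = 0 then {1} else 0 := by
    unfold places
    congr!
  rw [h4, normalizedFactors_irreducible hirr, bad_coeff hm, if_neg (pow_ne_zero 2 hc)]
  simp only [Multiset.toFinset_singleton, Finset.singleton_val, Multiset.map_singleton, add_zero]
  rw [natDegree_eq_of_degree_eq degree_normalize, bad_natDegree hc hm]

/-- The degrees of the bad points of the family. -/
theorem fam_degrees (hq : 5 ∣ Fintype.card κ ^ 2 + 1) (hirr : Irreducible (bad m c))
    (hm : 0 < m) : (fam m c).a = {1, 1} ∧ (fam m c).b = {2 * m} := by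
  have h1 := fam_local hq hirr
  exact ⟨h1.ha.trans (fam_places_a (c_ne_zero hirr) hm), h1.hb.trans (fam_places_b hirr hm)⟩

lemma places_X : places 2 (X : κ[X]) = {1, 1} := by
  have h1 := fam_places_a (κ := κ) (m := 1) (c := 1) one_ne_zero one_pos
  rwa [C_1, one_mul, pow_one, mul_one, mul_one] at h1

lemma fam_value (hm : 0 < m) (hc : c ≠ 0) (L : Type) [Field L] [Algebra κ L] (t : Option L) :
    value (2 * m) (C c * X ^ m * 1) L t = 0 ↔ value 2 (X : κ[X]) L t = 0 := by
  cases t with
  | some t =>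
    change aeval t (C c * X ^ m * 1) = 0 ↔ aeval t X = 0
    rw [mul_one, map_mul, map_pow, aeval_X, aeval_C, mul_eq_zero, pow_eq_zero_iff hm.ne',
      map_eq_zero_iff _ (algebraMap κ L).injective]
    exact ⟨fun h => h.resolve_left hc, Or.inr⟩
  | none =>
    change algebraMap κ L ((C c * X ^ m * 1 : κ[X]).coeff (2 * m)) = 0 ↔
      algebraMap κ L ((X : κ[X]).coeff 2) = 0
    rw [mul_one, coeff_C_mul, coeff_X_pow, if_neg (by omega), mul_zero, coeff_X]
    simp

lemma or_aux (A B C : Prop) : ((A ∨ B) ∨ (A ∨ C)) ↔ (A ∨ (B ∨ C)) := by tauto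

/-- The degrees of the bad points of two surfaces of the family. -/
theorem fam_pair_degrees {m' : ℕ} {c' : κ} (hq : 5 ∣ Fintype.card κ ^ 2 + 1)
    (hirr : Irreducible (bad m c)) (hirr' : Irreducible (bad m' c')) (hm : 0 < m) (hm' : 0 < m')
    (hne : bad m c ≠ bad m' c') : IsDegrees (fam m c) (fam m' c') {1, 1, 2 * m, 2 * m'} := by
  have h1 := fam_local hq hirr
  have h2 := fam_local hq hirr'
  have hc := c_ne_zero hirr
  have hc' := c_ne_zero hirr'
  have hco : IsCoprime (bad m c) (bad m' c') := by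
    by_cases h : bad m c ∣ bad m' c'
    · exfalso
      apply hne
      obtain ⟨v, hv⟩ := hirr.associated_of_dvd hirr' h
      obtain ⟨x, hx, hx'⟩ := Polynomial.isUnit_iff.1 v.isUnit
      rw [← hx'] at hv
      have h3 : (bad m c).coeff 0 = -1 := by
        rw [bad_eq]
        simp only [coeff_sub, coeff_C_mul, coeff_X_pow, coeff_C, if_neg hm.ne, if_true]
        rw [if_neg (by omega)]
        ring
      have h4 : (bad m' c').coeff 0 = -1 := by
        rw [bad_eq]
        simp only [coeff_sub, coeff_C_mul, coeff_X_pow, coeff_C, if_neg hm'.ne, if_true]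
        rw [if_neg (by omega)]
        ring
      have h5 := congrArg (fun P : κ[X] => P.coeff 0) hv
      simp only [coeff_mul_C] at h5
      rw [h3, h4] at h5
      have h6 : x = 1 := by linear_combination -h5
      rw [← hv, h6, C_1, mul_one]
    · exact hirr.coprime_iff_not_dvd.2 h
  have hX : (X : κ[X]) ≠ 0 := X_ne_zero
  have hset : ∀ (L : Type) [Field L] [Algebra κ L],
      {t : Option L | Bad (fam m c) L t ∨ Bad (fam m' c') L t} =
      {t : Option L | value 2 (X : κ[X]) L t = 0} ∪ ({t : Option L | value (2 * m) (bad m c) L t = 0} ∪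
        {t : Option L | value (2 * m') (bad m' c') L t = 0}) := by
    intro L _ _
    ext t
    simp only [Set.mem_union, Set.mem_ofPred_eq]
    have a1 : Bad (fam m c) L t ↔ _ := h1.disc L t
    have a2 : Bad (fam m' c') L t ↔ _ := h2.disc L t
    rw [a1, a2, fam_value hm hc, fam_value hm' hc']
    exact or_aux _ _ _
  have hd1 : ∀ (L : Type) [Field L] [Algebra κ L], Disjoint {t : Option L | value (2 * m) (bad m c) L t = 0}
      {t : Option L | value (2 * m') (bad m' c') L t = 0} := by
    intro L _ _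
    rw [Set.disjoint_left]
    intro t h3 h4
    have h5 := no_common (L := L) (N := 2 * m) (M := 2 * m') hco (Or.inl (by
      rw [bad_coeff hm]
      exact pow_ne_zero 2 hc)) t
    exact h5.elim (fun h => h h3) (fun h => h h4)
  have hd2 : ∀ (L : Type) [Field L] [Algebra κ L], Disjoint {t : Option L | value 2 (X : κ[X]) L t = 0}
      ({t : Option L | value (2 * m) (bad m c) L t = 0} ∪
        {t : Option L | value (2 * m') (bad m' c') L t = 0}) := by
    intro L _ _
    rw [Set.disjoint_left]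
    intro t h3 h4
    rw [Set.mem_ofPred_eq] at h3
    rcases (Set.mem_union _ _ _).1 h4 with h4 | h4
    · rw [Set.mem_ofPred_eq] at h4
      exact h1.disj L t ⟨(fam_value hm hc L t).2 h3, h4⟩
    · rw [Set.mem_ofPred_eq] at h4
      exact h2.disj L t ⟨(fam_value hm' hc' L t).2 h3, h4⟩
  have e : ({1, 1, 2 * m, 2 * m'} : Multiset ℕ) = {1, 1} + ({2 * m} + {2 * m'}) := by rfl
  refine ⟨?_, ?_, ?_⟩
  · intro n hn
    simp only [Multiset.insert_eq_cons, Multiset.mem_cons, Multiset.mem_singleton] at hn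
    omega
  · intro L _ _ _
    rw [hset, Set.ncard_union_eq (hd2 L) (finite_zeros _ _ hX)
      ((finite_zeros _ _ hirr.ne_zero).union (finite_zeros _ _ hirr'.ne_zero)),
      Set.ncard_union_eq (hd1 L) (finite_zeros _ _ hirr.ne_zero) (finite_zeros _ _ hirr'.ne_zero),
      ncard_value L hX, ncard_value L hirr.ne_zero, ncard_value L hirr'.ne_zero, places_X,
      fam_places_b hirr hm, fam_places_b hirr' hm', e, Multiset.map_add, Multiset.sum_add,
      Multiset.map_add, Multiset.sum_add]
  · rw [hset, Set.ncard_union_eq (hd2 _) (finite_zeros _ _ hX)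
      ((finite_zeros _ _ hirr.ne_zero).union (finite_zeros _ _ hirr'.ne_zero)),
      Set.ncard_union_eq (hd1 _) (finite_zeros _ _ hirr.ne_zero) (finite_zeros _ _ hirr'.ne_zero),
      ncard_zeros hX, ncard_zeros hirr.ne_zero, ncard_zeros hirr'.ne_zero, places_X,
      fam_places_b hirr hm, fam_places_b hirr' hm', e, Multiset.sum_add, Multiset.sum_add]

/-! ### The conditions on the degrees -/

lemma spread_five {n m' : ℕ} (ho : Odd n) (h5 : ¬ 5 ∣ n) (ho' : Odd m') (h5' : ¬ 5 ∣ m')
    (hco : Nat.Coprime n m') : IsSpread 5 ({1, 1, n, m'} : Multiset ℕ) := by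
  constructor
  · intro d hd
    simp only [Multiset.insert_eq_cons, Multiset.mem_cons, Multiset.mem_singleton] at hd
    rcases hd with rfl | rfl | rfl | rfl
    · exact ⟨odd_one, by norm_num⟩
    · exact ⟨odd_one, by norm_num⟩
    · exact ⟨ho, h5⟩
    · exact ⟨ho', h5'⟩
  · refine ⟨[1, 1, n, m'], rfl, ?_⟩
    simp
    exact hco

lemma spread_three {n : ℕ} (ho : Odd n) (h5 : ¬ 5 ∣ n) : IsSpread 5 ({1, 1, n} : Multiset ℕ) := by
  constructor
  · intro d hd
    simp only [Multiset.insert_eq_cons, Multiset.mem_cons, Multiset.mem_singleton] at hd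
    rcases hd with rfl | rfl | rfl
    · exact ⟨odd_one, by norm_num⟩
    · exact ⟨odd_one, by norm_num⟩
    · exact ⟨ho, h5⟩
  · refine ⟨[1, 1, n], rfl, ?_⟩
    simp

lemma spread_one : IsSpread 5 ({1, 1} : Multiset ℕ) := by
  constructor
  · intro d hd
    simp only [Multiset.insert_eq_cons, Multiset.mem_cons, Multiset.mem_singleton, or_self] at hd
    rw [hd]
    exact ⟨odd_one, by norm_num⟩
  · exact ⟨[1, 1], rfl, by simp⟩

lemma spread_single {n : ℕ} (ho : Odd n) (h5 : ¬ 5 ∣ n) : IsSpread 5 ({n} : Multiset ℕ) := by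
  constructor
  · intro d hd
    rw [Multiset.mem_singleton] at hd
    rw [hd]
    exact ⟨ho, h5⟩
  · exact ⟨[n], rfl, by simp⟩

/-- The members of the family are admissible in the sense of TorsionSections. -/
theorem fam_admissible (hq : 5 ∣ Fintype.card κ ^ 2 + 1) (hirr : Irreducible (bad m c))
    (hm : Odd m) (h5 : ¬ 5 ∣ m) :
    Pool.Agent.R942.ES.IsAdmissible (Fintype.card κ) (fam m c).ℓ (fam m c).a (fam m c).b := by
  obtain ⟨ha, hb⟩ := fam_degrees hq hirr hm.pos
  rw [ha, hb]
  refine Or.inr (Or.inr ⟨by show 5 ≠ 2; norm_num, hq, spread_one, by simp, by simp, {m}, by simp,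
    spread_single hm h5, by simp, by simp⟩)

theorem fam_square (hq : 5 ∣ Fintype.card κ ^ 2 + 1) (hirr : Irreducible (bad m c))
    (hm : Odd m) (h5 : ¬ 5 ∣ m) :
    IsAdmissible (Fintype.card κ) (fam m c).ℓ 2 ((fam m c).a + (fam m c).b) := by
  obtain ⟨ha, hb⟩ := fam_degrees hq hirr hm.pos
  rw [ha, hb]
  refine Or.inr ⟨by show 5 ≠ 2; norm_num, hq, {1, 1}, {m}, by simp, spread_three hm h5, by simp,
    by simp, by simp, by simp⟩

theorem fam_tensor {m' : ℕ} (hq : 5 ∣ Fintype.card κ ^ 2 + 1)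
    (hm : Odd m) (h5 : ¬ 5 ∣ m) (hm' : Odd m') (h5' : ¬ 5 ∣ m') (hco : Nat.Coprime m m') :
    IsAdmissible (Fintype.card κ) (fam m c).ℓ 3 {1, 1, 2 * m, 2 * m'} := by
  refine Or.inr ⟨by show 5 ≠ 2; norm_num, hq, {1, 1}, {m, m'}, by rfl,
    spread_five hm h5 hm' h5' hco, by simp, by simp, by simp, by simp⟩

end

end Pool.Agent.H84.FP
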