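import Pool.Agent.H84.FP.Node

/-!
# The fibres
-/

set_option autoImplicit false

namespace Pool.Agent.H84.FP

open Polynomial Module Pool.Agent.R942.ES WeierstrassCurve.Affine

section

variable {L : Type} [Field L]

lemma sing5 {c : L} (h5 : (5 : L) ≠ 0) (hd' : c ^ 2 - 11 * c - 1 = 0) :
    ∃ x₁ y₁, (w5 c).toAffine.Equation x₁ y₁ ∧ ¬ (w5 c).toAffine.Nonsingular x₁ y₁ := by
  have h125 : (125 : L) ≠ 0 := by
    have := pow_ne_zero 3 h5
    norm_num at this
    exact this
  have h25 : (25 : L) ≠ 0 := by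
    have := pow_ne_zero 2 h5
    norm_num at this
    exact this
  obtain ⟨x, hx⟩ : ∃ x : L, 5 * x + 3 * c + 1 = 0 := ⟨-(3 * c + 1) / 5, by field_simp; ring⟩
  obtain ⟨y, hy⟩ : ∃ y : L, 5 * y + 13 * c + 1 = 0 := ⟨-(13 * c + 1) / 5, by field_simp; ring⟩
  refine ⟨x, y, ?_, ?_⟩
  · rw [eqn_iff]
    simp only [w5]
    rw [← sub_eq_zero]
    apply (mul_eq_zero.1 (?_ : (125 : L) * _ = 0)).resolve_left h125
    linear_combination (5 * (5 * y + 13 * c + 1) + 5 * (1 - c) * (5 * x + 3 * c + 1) +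
      15 * (c ^ 2 - 11 * c - 1)) * hy + (-(5 * x + 3 * c + 1) ^ 2 +
      (14 * c + 3) * (5 * x + 3 * c + 1) + 8 * (c ^ 2 - 11 * c - 1)) * hx +
      (-123 * c - 11) * hd'
  · rw [nonsing_iff]
    rintro ⟨-, h | h⟩
    · apply h
      simp only [w5]
      apply (mul_eq_zero.1 (?_ : (25 : L) * _ = 0)).resolve_left h25
      linear_combination 5 * (1 - c) * hy + (-3 * (5 * x + 3 * c + 1) + 2 * (14 * c + 3)) * hx +
        8 * hd'
    · apply h
      simp only [w5]
      apply (mul_eq_zero.1 (?_ : (5 : L) * _ = 0)).resolve_left h5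
      linear_combination 2 * hy + (1 - c) * hx + 3 * hd'

lemma sing7 {c : L} (h7 : (7 : L) ≠ 0) (hd' : c ^ 3 - 8 * c ^ 2 + 5 * c + 1 = 0) :
    ∃ x₁ y₁, (w7 c).toAffine.Equation x₁ y₁ ∧ ¬ (w7 c).toAffine.Nonsingular x₁ y₁ := by
  have h343 : (7 : L) ^ 3 ≠ 0 := pow_ne_zero 3 h7
  have h49 : (7 : L) ^ 2 ≠ 0 := pow_ne_zero 2 h7
  obtain ⟨x, hx⟩ : ∃ x : L, 7 * x = 1 + 8 * c - 12 * c ^ 2 :=
    ⟨(1 + 8 * c - 12 * c ^ 2) / 7, by field_simp⟩
  obtain ⟨y, hy⟩ : ∃ y : L, 7 * y = 34 + 174 * c - 247 * c ^ 2 :=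
    ⟨(34 + 174 * c - 247 * c ^ 2) / 7, by field_simp⟩
  refine ⟨x, y, ?_, ?_⟩
  · rw [eqn_iff]
    simp only [w7]
    rw [← sub_eq_zero]
    apply (mul_eq_zero.1 (?_ : (7 : L) ^ 3 * _ = 0)).resolve_left h343
    have e : (7 : L) ^ 3 * (y ^ 2 + (1 + c - c ^ 2) * x * y + (c ^ 2 - c ^ 3) * y -
        (x ^ 3 + (c ^ 2 - c ^ 3) * x ^ 2 + 0 * x + 0)) =
        7 * (7 * y) ^ 2 + 7 * (1 + c - c ^ 2) * (7 * x) * (7 * y) +
          49 * (c ^ 2 - c ^ 3) * (7 * y) - (7 * x) ^ 3 - 7 * (c ^ 2 - c ^ 3) * (7 * x) ^ 2 := by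
      ring
    rw [e, hx, hy]
    linear_combination (8329 + 44515 * c - 52037 * c ^ 2 - 13308 * c ^ 3 + 1008 * c ^ 4) * hd'
  · rw [nonsing_iff]
    rintro ⟨-, h | h⟩
    · apply h
      simp only [w7]
      apply (mul_eq_zero.1 (?_ : (7 : L) ^ 2 * _ = 0)).resolve_left h49
      have e : (7 : L) ^ 2 * ((1 + c - c ^ 2) * y -
          (3 * x ^ 2 + 2 * (c ^ 2 - c ^ 3) * x + 0)) =
          7 * (1 + c - c ^ 2) * (7 * y) - (3 * (7 * x) ^ 2 + 14 * (c ^ 2 - c ^ 3) * (7 * x)) := by
        ring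
      rw [e, hx, hy]
      linear_combination (235 + 233 * c - 168 * c ^ 2) * hd'
    · apply h
      simp only [w7]
      apply (mul_eq_zero.1 (?_ : (7 : L) * _ = 0)).resolve_left h7
      linear_combination 2 * hy + (1 + c - c ^ 2) * hx + (69 + 12 * c) * hd'

end

section

variable {κ : Type} [Field κ] [Fintype κ]

lemma card_ne_L {S : Surface κ} {N M : ℕ} {F G : κ[X]} (h : LocalData S N M F G)
    (L : Type) [Field L] [Fintype L] [Algebra κ L] : (Fintype.card L : ZMod S.ℓ) ≠ 0 := by
  have : Fact S.ℓ.Prime := ⟨h.prime⟩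
  have h1 := Module.card_eq_pow_finrank (K := κ) (V := L)
  rw [h1, Nat.cast_pow]
  exact pow_ne_zero _ h.card_ne

lemma zmod2_sq : ∀ x : ZMod 2, x ≠ 0 → x ^ 2 = 1 := by decide

lemma zmod3_sq : ∀ x : ZMod 3, x ≠ 0 → x ^ 2 = 1 := by decide

/-- The local data, with the cardinality of the residue fields of the nodes of type `b`. -/
theorem exists_local_sq {S : Surface κ} (h : HasSection S) :
    ∃ (N M : ℕ) (F G : κ[X]), LocalData S N M F G ∧
      ∀ (L : Type) [Field L] [Fintype L] [Algebra κ L] (t : Option L), value M G L t = 0 →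
        (Fintype.card L : ZMod S.ℓ) ^ 2 = 1 := by
  cases h with
  | two m u v hp h hv hd =>
    have h1 := local2 m u v hp h hv hd
    exact ⟨_, _, _, _, h1, fun L _ _ _ t _ => zmod2_sq _ (card_ne_L h1 L)⟩
  | three m u v hp h hv hd =>
    have h1 := local3 m u v hp h hv hd
    exact ⟨_, _, _, _, h1, fun L _ _ _ t _ => zmod3_sq _ (card_ne_L h1 L)⟩
  | five m u v hp h hv hd =>
    have h1 := local5 m u v hp h hv hd
    refine ⟨_, _, _, _, h1, fun L _ _ _ t ht => ?_⟩
    have h5L : (5 : L) ≠ 0 := by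
      have := map_ne (κ := κ) (L := L) (n := 5) (by exact_mod_cast hp)
      exact_mod_cast this
    have hF : value (2 * m) (u * v) L t ≠ 0 := fun h2 => h1.disj L t ⟨h2, ht⟩
    have hcnt := h1.count L t
    rw [if_neg hF, if_pos ht, mul_zero, zero_add, sub_self] at hcnt
    have hvalA : value (2 * m) (u * v) L t = value m u L t * value m v L t := by
      rw [← value_mul h.degree_u h.degree_v, two_mul]
    have hvalB : value (2 * m) (u ^ 2 - 11 * (u * v) - v ^ 2) L t =
        value m u L t ^ 2 - 11 * value m u L t * value m v L t - value m v L t ^ 2 := by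
      have e := value_natCast_mul (N := 2 * m) 11 (u * v) t
      push_cast at e
      rw [value_sub, value_sub, e, hvalA, ← value_pow h.degree_u, ← value_pow h.degree_v]
      ring
    rw [hvalA] at hF
    rw [hvalB] at ht
    have hv0 := right_ne_zero_of_mul hF
    have h2 : cnt ((order5 m u v).fibre L t) = cnt (w5 (value m u L t / value m v L t)) :=
      curve5_scale hv0
    rw [h2] at hcnt
    refine sq_of_singular (card_ne_L h1 L) (sing5 h5L ?_) hcnt
    field_simp
    linear_combination ht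
  | seven m u v hp h hv hd =>
    have h1 := local7 m u v hp h hv hd
    refine ⟨_, _, _, _, h1, fun L _ _ _ t ht => ?_⟩
    have h7L : (7 : L) ≠ 0 := by
      have := map_ne (κ := κ) (L := L) (n := 7) (by exact_mod_cast hp)
      exact_mod_cast this
    have huv : (u * v).natDegree ≤ m + m :=
      natDegree_mul_le.trans (add_le_add h.degree_u h.degree_v)
    have huv' : (u - v).natDegree ≤ m :=
      (natDegree_sub_le u v).trans (max_le h.degree_u h.degree_v)
    have hF : value (3 * m) (u * v * (u - v)) L t ≠ 0 := fun h2 => h1.disj L t ⟨h2, ht⟩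
    have hcnt := h1.count L t
    rw [if_neg hF, if_pos ht, mul_zero, zero_add, sub_self] at hcnt
    have hvalA : value (3 * m) (u * v * (u - v)) L t =
        value m u L t * value m v L t * (value m u L t - value m v L t) := by
      rw [show 3 * m = m + m + m by ring, value_mul huv huv', value_mul h.degree_u h.degree_v,
        value_sub]
    have hvalB : value (3 * m) (u ^ 3 - 8 * (u ^ 2 * v) + 5 * (u * v ^ 2) + v ^ 3) L t =
        value m u L t ^ 3 - 8 * value m u L t ^ 2 * value m v L t +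
          5 * value m u L t * value m v L t ^ 2 + value m v L t ^ 3 := by
      have e := value_natCast_mul (N := 3 * m) 8 (u ^ 2 * v) t
      have e' := value_natCast_mul (N := 3 * m) 5 (u * v ^ 2) t
      push_cast at e e'
      have f : value (3 * m) (u ^ 2 * v) L t = value m u L t ^ 2 * value m v L t := by
        rw [show 3 * m = 2 * m + m by ring, value_mul _ h.degree_v, value_pow h.degree_u]
        exact natDegree_pow_le.trans (Nat.mul_le_mul_left 2 h.degree_u)
      have f' : value (3 * m) (u * v ^ 2) L t = value m u L t * value m v L t ^ 2 := by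
        rw [show 3 * m = m + 2 * m by ring, value_mul h.degree_u, value_pow h.degree_v]
        exact natDegree_pow_le.trans (Nat.mul_le_mul_left 2 h.degree_v)
      rw [value_add, value_add, value_sub, e, e', f, f', value_pow h.degree_u 3 t,
        value_pow h.degree_v 3 t]
      ring
    rw [hvalA] at hF
    rw [hvalB] at ht
    have hv0 := right_ne_zero_of_mul (left_ne_zero_of_mul hF)
    have h2 : cnt ((order7 m u v).fibre L t) = cnt (w7 (value m u L t / value m v L t)) :=
      curve7_scale hv0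
    rw [h2] at hcnt
    refine sq_of_singular (card_ne_L h1 L) (sing7 h7L ?_) hcnt
    field_simp
    linear_combination ht

end

end Pool.Agent.H84.FP
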