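import Pool.Agent.H84.FP.Defs

/-!
# Weierstrass curves over a finite field with a singular point
-/

set_option autoImplicit false

namespace Pool.Agent.H84.FP

open Polynomial Module Pool.Agent.R942.ES WeierstrassCurve.Affine

section

variable {L : Type} [Field L] [Fintype L]

/-- The number of points of a singular Weierstrass curve. -/
theorem cnt_singular {W : WeierstrassCurve L} {x₁ y₁ : L}
    (h₁ : W.toAffine.Equation x₁ y₁) (hs₁ : ¬ W.toAffine.Nonsingular x₁ y₁) :
    ∃ k ≤ 2, cnt W + k = Fintype.card L + 1 := by
  classical
  rw [nonsing_iff] at hs₁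
  rw [eqn_iff] at h₁
  rw [not_and, not_or, not_not, not_not] at hs₁
  obtain ⟨f1, f2⟩ := hs₁ h₁
  let g : L → L := fun s => s ^ 2 + W.a₁ * s - W.a₂ - 3 * x₁
  -- the points of the curve
  have key : ∀ X Y : L, W.toAffine.Equation (x₁ + X) (y₁ + Y) ↔
      Y ^ 2 + W.a₁ * X * Y = X ^ 3 + (W.a₂ + 3 * x₁) * X ^ 2 := by
    intro X Y
    rw [eqn_iff]
    constructor
    · intro h
      linear_combination h - h₁ - X * f1 - Y * f2
    · intro h
      linear_combination h + h₁ + X * f1 + Y * f2
  have e : {p : L × L // W.toAffine.Equation p.1 p.2} ≃ Option {s : L // g s ≠ 0} :=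
    { toFun := fun p => if h : p.1.1 = x₁ then none else
        some ⟨(p.1.2 - y₁) / (p.1.1 - x₁), by
          have h1 : p.1.1 - x₁ ≠ 0 := sub_ne_zero.2 h
          have h2 := (key (p.1.1 - x₁) (p.1.2 - y₁)).1 (by
            rw [add_sub_cancel, add_sub_cancel]
            exact p.2)
          have h3 : g ((p.1.2 - y₁) / (p.1.1 - x₁)) = p.1.1 - x₁ := by
            simp only [g]
            field_simp
            linear_combination h2
          rw [h3]
          exact h1⟩
      invFun := fun o => match o with
        | none => ⟨(x₁, y₁), (eqn_iff _ _ _).2 h₁⟩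
        | some s => ⟨(x₁ + g s.1, y₁ + s.1 * g s.1), by
            rw [key]
            simp only [g]
            ring⟩
      left_inv := by
        rintro ⟨⟨x, y⟩, hp⟩
        by_cases h : x = x₁
        · subst h
          have h2 := (key 0 (y - y₁)).1 (by
            rw [add_zero, add_sub_cancel]
            exact hp)
          have h3 : (y - y₁) ^ 2 = 0 := by linear_combination h2
          have h4 : y = y₁ := sub_eq_zero.1 ((pow_eq_zero_iff two_ne_zero).1 h3)
          simp [h4]
        · have h1 : x - x₁ ≠ 0 := sub_ne_zero.2 h
          have h2 := (key (x - x₁) (y - y₁)).1 (by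
            rw [add_sub_cancel, add_sub_cancel]
            exact hp)
          have h3 : g ((y - y₁) / (x - x₁)) = x - x₁ := by
            simp only [g]
            field_simp
            linear_combination h2
          simp only [dif_neg h]
          apply Subtype.ext
          apply Prod.ext
          · show x₁ + g ((y - y₁) / (x - x₁)) = x
            rw [h3]
            ring
          · show y₁ + (y - y₁) / (x - x₁) * g ((y - y₁) / (x - x₁)) = y
            rw [h3]
            field_simp
            ring
      right_inv := by
        rintro (_ | ⟨s, hs⟩)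
        · simp
        · have h1 : ¬ (x₁ + g s = x₁) := by
            intro h
            apply hs
            linear_combination h
          simp only [dif_neg h1]
          congr 2
          have h2 : x₁ + g s - x₁ = g s := by ring
          rw [h2]
          field_simp
          ring }
  have h1 : cnt W = Nat.card {s : L // g s ≠ 0} + 1 := by
    rw [cnt, Nat.card_congr e]
    exact Finite.card_option
  have h2 : Nat.card {s : L // g s ≠ 0} = Fintype.card L - Nat.card {s : L // g s = 0} := by
    rw [Nat.card_eq_fintype_card, Nat.card_eq_fintype_card, Fintype.card_subtype_compl]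
  have h3 : Nat.card {s : L // g s = 0} ≤ 2 := by
    let p : L[X] := X ^ 2 + C W.a₁ * X - C (W.a₂ + 3 * x₁)
    have hp : p.natDegree = 2 := by
      have h4 : p = X ^ 2 + (C W.a₁ * X - C (W.a₂ + 3 * x₁)) := by
        simp only [p]
        ring
      rw [h4, natDegree_add_eq_left_of_natDegree_lt, natDegree_X_pow]
      rw [natDegree_X_pow]
      refine lt_of_le_of_lt (natDegree_sub_le _ _) ?_
      rw [natDegree_C]
      refine lt_of_le_of_lt (max_le (natDegree_C_mul_le _ _) (Nat.zero_le _)) ?_
      rw [natDegree_X]
      norm_num
    have hp0 : p ≠ 0 := by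
      intro h
      rw [h, natDegree_zero] at hp
      exact absurd hp (by norm_num)
    have h4 : Nat.card {s : L // g s = 0} = (Finset.univ.filter fun s : L => g s = 0).card := by
      rw [Nat.card_eq_fintype_card, Fintype.card_subtype]
    have h5 : (Finset.univ.filter fun s : L => g s = 0) ⊆ p.roots.toFinset := by
      intro s hs
      rw [Finset.mem_filter] at hs
      rw [Multiset.mem_toFinset, mem_roots hp0, IsRoot.def]
      simp only [p, eval_sub, eval_add, eval_mul, eval_pow, eval_X, eval_C]
      have := hs.2
      simp only [g] at this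
      linear_combination this
    rw [h4]
    calc _ ≤ p.roots.toFinset.card := Finset.card_le_card h5
      _ ≤ Multiset.card p.roots := Multiset.toFinset_card_le _
      _ ≤ p.natDegree := card_roots' p
      _ = 2 := hp
  have h4 : Nat.card {s : L // g s = 0} ≤ Fintype.card L := by
    rw [Nat.card_eq_fintype_card]
    exact Fintype.card_subtype_le _
  refine ⟨Nat.card {s : L // g s = 0}, h3, ?_⟩
  omega

/-- The cardinality of the field, if the number of points is divisible by `ℓ`. -/
theorem sq_of_singular {ℓ : ℕ} {W : WeierstrassCurve L} (hL : (Fintype.card L : ZMod ℓ) ≠ 0)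
    (hs : ∃ x₁ y₁, W.toAffine.Equation x₁ y₁ ∧ ¬ W.toAffine.Nonsingular x₁ y₁)
    (hd : (cnt W : ZMod ℓ) = 0) : (Fintype.card L : ZMod ℓ) ^ 2 = 1 := by
  obtain ⟨x₁, y₁, h₁, hs₁⟩ := hs
  obtain ⟨k, hk, h⟩ := cnt_singular h₁ hs₁
  have h1 := congrArg (Nat.cast : ℕ → ZMod ℓ) h
  push_cast at h1
  rw [hd, zero_add] at h1
  have h2 : k = 0 ∨ k = 1 ∨ k = 2 := by omega
  rcases h2 with rfl | rfl | rfl
  · have h3 : (Fintype.card L : ZMod ℓ) = -1 := by
      push_cast at h1
      linear_combination -h1
    rw [h3]
    ring
  · exfalso
    apply hL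
    push_cast at h1
    linear_combination -h1
  · have h3 : (Fintype.card L : ZMod ℓ) = 1 := by
      push_cast at h1
      linear_combination -h1
    rw [h3]
    ring

end

end Pool.Agent.H84.FP
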