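import Pool.Agent.H84.FP.Loc

/-!
# The traces modulo the order of the section
-/

set_option autoImplicit false

namespace Pool.Agent.H84.FP

open Polynomial Module Pool.Agent.R942.ES Pool.Agent.W111.HS.EC

section

variable {κ : Type} [Field κ] [Fintype κ]

/-- The traces of the fibres modulo `ℓ`. -/
theorem tr_cases {S : Surface κ} (h : HasSection S) {ℓ : ℕ} (hℓ : S.ℓ = ℓ)
    (L : Type) [Field L] [Fintype L] [Algebra κ L] (t : Option L) :
    (¬ Bad S L t ∧ (tr S L t : ZMod ℓ) = (Fintype.card L : ZMod ℓ) + 1) ∨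
    (Bad S L t ∧ (tr S L t : ZMod ℓ) = 1) ∨
    (Bad S L t ∧ (tr S L t : ZMod ℓ) = (Fintype.card L : ZMod ℓ) ∧
      (Fintype.card L : ZMod ℓ) ^ 2 = 1) := by
  subst hℓ
  obtain ⟨N, M, F, G, h1, h2⟩ := exists_local_sq h
  have hc := h1.count L t
  have hb : Bad S L t ↔ value N F L t = 0 ∨ value M G L t = 0 := h1.disc L t
  have ht : (tr S L t : ZMod S.ℓ) = (Fintype.card L : ZMod S.ℓ) -
      ((cnt (S.fibre L t) : ℕ) : ZMod S.ℓ) := by
    unfold tr
    push_cast
    rfl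
  rw [ht, hc]
  by_cases hF : value N F L t = 0
  · have hG : ¬ value M G L t = 0 := fun hG => h1.disj L t ⟨hF, hG⟩
    refine Or.inr (Or.inl ⟨hb.2 (Or.inl hF), ?_⟩)
    rw [if_pos hF, if_neg hG]
    ring
  · by_cases hG : value M G L t = 0
    · refine Or.inr (Or.inr ⟨hb.2 (Or.inr hG), ?_, h2 L t hG⟩)
      rw [if_neg hF, if_pos hG]
      ring
    · refine Or.inl ⟨fun h3 => (hb.1 h3).elim hF hG, ?_⟩
      rw [if_neg hF, if_neg hG]
      ring

open Classical in
lemma tensor_term {S₁ S₂ : Surface κ} (h₁ : HasSection S₁) (h₂ : HasSection S₂) {ℓ : ℕ}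
    (hℓ₁ : S₁.ℓ = ℓ) (hℓ₂ : S₂.ℓ = ℓ) (L : Type) [Field L] [Fintype L] [Algebra κ L]
    (t : Option L) :
    ((tr S₁ L t * tr S₂ L t *
      (if Bad S₁ L t ∧ Bad S₂ L t then 1 + (Fintype.card L : ℤ) else 1) : ℤ) : ZMod ℓ) =
    (1 + (Fintype.card L : ZMod ℓ)) ^ 2 -
      ((Fintype.card L : ZMod ℓ) + (Fintype.card L : ZMod ℓ) ^ 2) *
        ((if Bad S₁ L t ∨ Bad S₂ L t then 1 else 0 : ℕ) : ZMod ℓ) := by
  set N : ZMod ℓ := (Fintype.card L : ZMod ℓ) with hN
  rw [Int.cast_mul, Int.cast_mul]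
  rcases tr_cases h₁ hℓ₁ L t with ⟨a1, a2⟩ | ⟨a1, a2⟩ | ⟨a1, a2, a3⟩ <;>
    rcases tr_cases h₂ hℓ₂ L t with ⟨b1, b2⟩ | ⟨b1, b2⟩ | ⟨b1, b2, b3⟩ <;>
    rw [a2, b2] <;> simp only [a1, b1, if_true, if_false, and_true, or_true, true_or, or_false,
      and_false, or_self, and_self,
      Nat.cast_one, Nat.cast_zero, Int.cast_one, mul_one, mul_zero, sub_zero] <;>
    push_cast <;> rw [← hN] at *
  · ring
  · ring
  · linear_combination b3
  · ring
  · ring
  · linear_combination b3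
  · linear_combination a3
  · linear_combination a3
  · linear_combination (1 + N) * a3

open Classical in
lemma square_term {S : Surface κ} (h : HasSection S) {ℓ : ℕ}
    (hℓ : S.ℓ = ℓ) (L : Type) [Field L] [Fintype L] [Algebra κ L] (t : Option L) :
    ((if Bad S L t then 1 else tr S L t ^ 2 - (Fintype.card L : ℤ) : ℤ) : ZMod ℓ) =
    (1 + (Fintype.card L : ZMod ℓ) + (Fintype.card L : ZMod ℓ) ^ 2) -
      ((Fintype.card L : ZMod ℓ) + (Fintype.card L : ZMod ℓ) ^ 2) *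
        ((if Bad S L t ∨ Bad S L t then 1 else 0 : ℕ) : ZMod ℓ) := by
  set N : ZMod ℓ := (Fintype.card L : ZMod ℓ) with hN
  rcases tr_cases h hℓ L t with ⟨a1, a2⟩ | ⟨a1, a2⟩ | ⟨a1, a2, a3⟩
  · rw [if_neg a1, if_neg (fun h => h.elim a1 a1)]
    push_cast
    rw [a2, ← hN]
    ring
  · rw [if_pos a1, if_pos (Or.inl a1)]
    push_cast
    ring
  · rw [if_pos a1, if_pos (Or.inl a1)]
    push_cast
    ring

/-- The sum of the local terms. -/
lemma sum_terms {ℓ : ℕ} (L : Type) [Field L] [Fintype L] (p : Option L → Prop) [DecidablePred p]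
    (f : Option L → ℤ)
    (a b : ZMod ℓ) (h : ∀ t, (f t : ZMod ℓ) = a - b * ((if p t then 1 else 0 : ℕ) : ZMod ℓ)) :
    ((-∑ t : Option L, f t : ℤ) : ZMod ℓ) =
      b * ({t : Option L | p t}.ncard : ZMod ℓ) - ((Fintype.card L : ZMod ℓ) + 1) * a := by
  have h1 : ({t : Option L | p t}.ncard : ZMod ℓ) =
      ∑ t : Option L, ((if p t then 1 else 0 : ℕ) : ZMod ℓ) := by
    classical
    rw [← Nat.cast_sum, ← Finset.card_filter, Set.ncard_eq_toFinset_card']
    congr 2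
    ext t
    simp
  rw [Int.cast_neg, Int.cast_sum, Finset.sum_congr rfl fun t _ => h t, Finset.sum_sub_distrib,
    ← Finset.mul_sum, ← h1, Finset.sum_const, Finset.card_univ, Fintype.card_option]
  simp only [nsmul_eq_mul]
  push_cast
  ring

end

section

variable {ℓ : ℕ}

/-- The denominator. -/
noncomputable def den' (k : ℕ) (c : ZMod ℓ) : (ZMod ℓ)[X] :=
  fac 1 {1} * fac c {1} ^ k * fac (c ^ 2) {1} ^ k * fac (c ^ 3) {1}

lemma isLog_den' (k : ℕ) (c : ZMod ℓ) :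
    ∃ T, IsLog ((den' k c : (ZMod ℓ)[X]) : PowerSeries (ZMod ℓ)) T ∧
    ∀ n, 1 ≤ n → PowerSeries.coeff n T = 1 + k * c ^ n + k * (c ^ n) ^ 2 + (c ^ n) ^ 3 := by
  have h1 := isLog_fac (ℓ := ℓ) 1 {1} (by simp)
  have h2 := isLog_fac (ℓ := ℓ) c {1} (by simp)
  have h3 := isLog_fac (ℓ := ℓ) (c ^ 2) {1} (by simp)
  have h4 := isLog_fac (ℓ := ℓ) (c ^ 3) {1} (by simp)
  have h5 := isLog_mul (isLog_mul (isLog_mul h1 (isLog_pow h2 k)) (isLog_pow h3 k)) h4
  rw [← Polynomial.coe_pow, ← Polynomial.coe_pow, ← Polynomial.coe_mul, ← Polynomial.coe_mul,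
    ← Polynomial.coe_mul] at h5
  refine ⟨_, h5, ?_⟩
  intro n hn
  rw [map_add, map_add, map_add, map_nsmul, map_nsmul, coeff_lg_sum _ _ n hn,
    coeff_lg_sum _ _ n hn, coeff_lg_sum _ _ n hn, coeff_lg_sum _ _ n hn]
  have h4 : dsum n {1} = 1 := by simp [dsum]
  rw [h4]
  simp only [one_pow, Nat.cast_one, mul_one, nsmul_eq_mul]
  ring

lemma coeff_zero_pow {P : (ZMod ℓ)[X]} (h : P.coeff 0 = 1) (k : ℕ) : (P ^ k).coeff 0 = 1 := by
  rw [coeff_zero_eq_eval_zero] at h ⊢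
  rw [eval_pow, h, one_pow]

lemma coeff_zero_den' (k : ℕ) (c : ZMod ℓ) : (den' k c).coeff 0 = 1 := by
  rw [den', mul_coeff_zero, mul_coeff_zero, mul_coeff_zero,
    coeff_zero_pow (coeff_zero_fac _ _ (by simp)), coeff_zero_pow (coeff_zero_fac _ _ (by simp)),
    coeff_zero_fac _ _ (by simp), coeff_zero_fac _ _ (by simp)]
  ring

lemma natDegree_den' [Fact ℓ.Prime] (k : ℕ) {c : ZMod ℓ} (hc : c ≠ 0) :
    (den' k c).natDegree = 2 * k + 2 := by
  have h1 : ∀ x : ZMod ℓ, fac x {1} ≠ 0 := fun x => fac_ne_zero x (by simp)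
  rw [den', natDegree_mul (mul_ne_zero (mul_ne_zero (h1 _) (pow_ne_zero k (h1 _)))
    (pow_ne_zero k (h1 _))) (h1 _),
    natDegree_mul (mul_ne_zero (h1 _) (pow_ne_zero k (h1 _))) (pow_ne_zero k (h1 _)),
    natDegree_mul (h1 _) (pow_ne_zero k (h1 _)), natDegree_pow, natDegree_pow,
    natDegree_fac one_ne_zero (by simp),
    natDegree_fac hc (by simp), natDegree_fac (pow_ne_zero 2 hc) (by simp),
    natDegree_fac (pow_ne_zero 3 hc) (by simp)]
  simp only [Multiset.sum_singleton]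
  ring

/-- The equation of the reduction. -/
lemma isReduction_iff (q k : ℕ) (d : Multiset ℕ) (R : (ZMod ℓ)[X]) :
    IsReduction q ℓ k d R ↔ R * den' k (q : ZMod ℓ) = fac (q : ZMod ℓ) d * fac ((q : ZMod ℓ) ^ 2) d := by
  have h1 : den' k (q : ZMod ℓ) = ((1 - X) * (1 - (q : (ZMod ℓ)[X]) * X) ^ k *
      (1 - (q : (ZMod ℓ)[X]) ^ 2 * X) ^ k * (1 - (q : (ZMod ℓ)[X]) ^ 3 * X)) := by
    simp [den', fac]
  have h2 : fac (q : ZMod ℓ) d * fac ((q : ZMod ℓ) ^ 2) d =
      (d.map fun n => (1 - ((q : (ZMod ℓ)[X]) * X) ^ n) *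
        (1 - ((q : (ZMod ℓ)[X]) ^ 2 * X) ^ n)).prod := by
    rw [fac, fac, ← Multiset.prod_map_mul]
    congr 1
    refine Multiset.map_congr rfl fun n _ => ?_
    rw [map_pow, map_natCast, mul_pow, map_pow, map_pow, map_natCast, mul_pow]
  rw [IsReduction, ← h1, ← h2]

/-- Separability from the traces modulo `ℓ`. -/
theorem separable_of_congr [hℓ : Fact ℓ.Prime] {E W : Type} [Field E] [CharZero E]
    [IsAlgClosed E] [AddCommGroup W] [Module E W] [FiniteDimensional E W]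
    {q k : ℕ} (hq : (q : ZMod ℓ) ≠ 0) {d : Multiset ℕ} (hd : ∀ n ∈ d, 1 ≤ n)
    (Φ : Module.End E W) (hdim : finrank E W + (2 * k + 2) = 2 * d.sum)
    (hex : ∀ n, 1 ≤ n → ∃ z : ℤ, LinearMap.trace E W (Φ ^ n) = z ∧ (z : ZMod ℓ) =
      ((q : ZMod ℓ) ^ n + ((q : ZMod ℓ) ^ n) ^ 2) * (dsum n d : ZMod ℓ) -
        (1 + k * (q : ZMod ℓ) ^ n + k * ((q : ZMod ℓ) ^ n) ^ 2 + ((q : ZMod ℓ) ^ n) ^ 3))
    {R : (ZMod ℓ)[X]} (hR : IsReduction q ℓ k d R) (hsq : Squarefree R) :
    Φ.charpoly.Separable := by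
  rw [isReduction_iff] at hR
  set c : ZMod ℓ := (q : ZMod ℓ) with hc
  have hden0 : den' k c ≠ 0 := by
    intro h1
    have h2 := coeff_zero_den' k c
    rw [h1, coeff_zero] at h2
    exact zero_ne_one h2
  have hprod0 : fac c d * fac (c ^ 2) d ≠ 0 :=
    mul_ne_zero (fac_ne_zero _ hd) (fac_ne_zero _ hd)
  have hR0 : R ≠ 0 := by
    intro h1
    rw [h1, zero_mul] at hR
    exact hprod0 hR.symm
  have hcoeff : R.coeff 0 = 1 := by
    have h1 := congrArg (fun P : (ZMod ℓ)[X] => P.coeff 0) hR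
    simp only [mul_coeff_zero] at h1
    rw [coeff_zero_den', coeff_zero_fac _ _ hd, coeff_zero_fac _ _ hd, mul_one, mul_one] at h1
    exact h1
  have hdeg : R.natDegree = finrank E W := by
    have h1 := congrArg natDegree hR
    rw [natDegree_mul hR0 hden0, natDegree_mul (fac_ne_zero _ hd) (fac_ne_zero _ hd),
      natDegree_den' k hq, natDegree_fac hq hd, natDegree_fac (pow_ne_zero 2 hq) hd] at h1
    omega
  choose! T hT using hex
  obtain ⟨D, hD, hD'⟩ := isLog_den' (ℓ := ℓ) k c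
  have hlog : IsLog ((R * den' k c : (ZMod ℓ)[X]) : PowerSeries (ZMod ℓ))
      ((d.map fun n => lg n (c ^ n)).sum + (d.map fun n => lg n ((c ^ 2) ^ n)).sum) := by
    rw [hR, Polynomial.coe_mul]
    exact isLog_mul (isLog_fac c d hd) (isLog_fac (c ^ 2) d hd)
  rw [Polynomial.coe_mul] at hlog
  have hden1 : ((den' k c : (ZMod ℓ)[X]) : PowerSeries (ZMod ℓ)) ≠ 0 := by
    intro h1
    apply hden0
    exact Polynomial.coe_injective _ (h1.trans (Polynomial.coe_zero).symm)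
  refine (separable_of_traces Φ T (fun n hn => (hT n hn).1) R hsq hcoeff hdeg _
    (isLog_cancel hden1 hlog hD) fun n hn => ?_).1
  rw [(hT n hn).2, map_sub, map_add, coeff_lg_sum _ _ n hn, coeff_lg_sum _ _ n hn, hD' n hn]
  ring

end

section

variable {κ : Type} [Field κ] [Fintype κ] {E W : Type} [Field E] [CharZero E]
    [IsAlgClosed E] [AddCommGroup W] [Module E W] [FiniteDimensional E W]

lemma prime_of {S : Surface κ} (h : HasSection S) : S.ℓ.Prime := by
  obtain ⟨_, _, _, _, h1⟩ := exists_local h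
  exact h1.prime

lemma card_ne_of {S : Surface κ} (h : HasSection S) : (Fintype.card κ : ZMod S.ℓ) ≠ 0 := by
  obtain ⟨_, _, _, _, h1⟩ := exists_local h
  exact h1.card_ne

/-- The extension of degree `n`. -/
lemma exists_extension (κ : Type) [Field κ] [Fintype κ] (n : ℕ) (hn : 1 ≤ n) :
    ∃ (L : Type) (_ : Field L) (_ : Fintype L) (_ : Algebra κ L),
      finrank κ L = n ∧ Fintype.card L = Fintype.card κ ^ n := by
  obtain ⟨p, hpc⟩ := CharP.exists κ
  have := hpc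
  have hp : Fact p.Prime := ⟨CharP.char_is_prime κ p⟩
  have hn0 : NeZero n := ⟨by omega⟩
  let L := FiniteField.Extension κ p n
  have hfr : finrank κ L = n := FiniteField.finrank_extension κ p n
  have hfin : Finite L := inferInstance
  letI : Fintype L := Fintype.ofFinite L
  have hcard : Fintype.card L = Fintype.card κ ^ n := by
    have h1 := FiniteField.natCard_extension κ p n
    rw [Nat.card_eq_fintype_card, Nat.card_eq_fintype_card] at h1
    exact h1
  exact ⟨L, inferInstance, inferInstance, inferInstance, hfr, hcard⟩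

/-- **The tensor product.** -/
theorem tensor_separable {S₁ S₂ : Surface κ} (h₁ : HasSection S₁) (h₂ : HasSection S₂)
    (hℓ : S₁.ℓ = S₂.ℓ) {d : Multiset ℕ} (hd : IsDegrees S₁ S₂ d) {Φ : Module.End E W}
    (hΦ : IsTensor S₁ S₂ Φ) {R : (ZMod S₁.ℓ)[X]} (hR : IsReduction (Fintype.card κ) S₁.ℓ 3 d R)
    (hsq : Squarefree R) : Φ.charpoly.Separable := by
  classical
  haveI : Fact S₁.ℓ.Prime := ⟨prime_of h₁⟩
  refine separable_of_congr (card_ne_of h₁) hd.pos Φ ?_ ?_ hR hsq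
  · rw [← hd.geometric]
    exact hΦ.dimension
  · intro n hn
    obtain ⟨L, _, _, _, hfr, hcard⟩ := exists_extension κ n hn
    refine ⟨_, by rw [← hfr]; exact hΦ.lefschetz L, ?_⟩
    rw [sum_terms L (fun t => Bad S₁ L t ∨ Bad S₂ L t) _ _ _
      (fun t => tensor_term h₁ h₂ rfl hℓ.symm L t), hd.points L, hfr]
    have e : (d.map fun m => if m ∣ n then m else 0).sum = dsum n d := rfl
    rw [e, hcard]
    push_cast
    ring

/-- **The symmetric square.** -/
theorem square_separable {S : Surface κ} (h : HasSection S) {d : Multiset ℕ}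
    (hd : IsDegrees S S d) {Φ : Module.End E W}
    (hΦ : IsSymSquare S Φ) {R : (ZMod S.ℓ)[X]} (hR : IsReduction (Fintype.card κ) S.ℓ 2 d R)
    (hsq : Squarefree R) : Φ.charpoly.Separable := by
  classical
  haveI : Fact S.ℓ.Prime := ⟨prime_of h⟩
  refine separable_of_congr (card_ne_of h) hd.pos Φ ?_ ?_ hR hsq
  · rw [← hd.geometric]
    have e : {t : Option (AlgebraicClosure κ) | Bad S _ t ∨ Bad S _ t} =
        {t : Option (AlgebraicClosure κ) | Bad S _ t} := by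
      ext t
      simp
    rw [e]
    exact hΦ.dimension
  · intro n hn
    obtain ⟨L, _, _, _, hfr, hcard⟩ := exists_extension κ n hn
    refine ⟨_, by rw [← hfr]; exact hΦ.lefschetz L, ?_⟩
    rw [sum_terms L (fun t => Bad S L t ∨ Bad S L t) _ _ _
      (fun t => square_term h rfl L t), hd.points L, hfr]
    have e : (d.map fun m => if m ∣ n then m else 0).sum = dsum n d := rfl
    rw [e, hcard]
    push_cast
    ring

end

end Pool.Agent.H84.FP
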