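import Pool.Agent.H84.FP.Fam

/-!
# The whole cohomology of the threefolds
-/

set_option autoImplicit false

namespace Pool.Agent.H84.FP

open Polynomial Module
open Pool.Agent.R942.ES hiding IsAdmissible

section

variable {E : Type} [Field E] [CharZero E] [IsAlgClosed E]

omit [CharZero E] in
lemma semisimple_of_induced {V V' : Type} [AddCommGroup V] [Module E V] [FiniteDimensional E V]
    [AddCommGroup V'] [Module E V'] [FiniteDimensional E V'] {F : Module.End E V}
    {G : Module.End E V'} (h : IsInduced F G) (hG : G.IsSemisimple) : F.IsSemisimple := by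
  obtain ⟨p, hp, hpF⟩ := h
  refine Pool.Agent.R942.PR.isSemisimple_of_span F (p '' {v | ∃ c : E, G v = c • v}) ?_ ?_
  · rw [Submodule.span_image, Pool.Agent.R942.PR.span_of_isSemisimple hG, Submodule.map_top,
      LinearMap.range_eq_top]
    exact hp
  · rintro _ ⟨v, ⟨c, hc⟩, rfl⟩
    exact ⟨c, by rw [← hpF, hc, map_smul]⟩

omit [CharZero E] in
lemma semisimple_of_small {V : Type} [AddCommGroup V] [Module E V] [FiniteDimensional E V]
    {F : Module.End E V} (h : finrank E V ≤ 1) : F.IsSemisimple := by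
  obtain ⟨v, hv⟩ := finrank_le_one_iff.1 h
  refine Pool.Agent.R942.PR.isSemisimple_of_span F {v} ?_ ?_
  · rw [eq_top_iff]
    intro w _
    rw [Submodule.mem_span_singleton]
    exact hv w
  · intro w hw
    rw [Set.mem_singleton_iff] at hw
    subst hw
    obtain ⟨c, hc⟩ := hv (F w)
    exact ⟨c, hc.symm⟩

/-- Frobenius is semisimple on all cohomology groups of the threefold. -/
theorem threefold_semisimple {q : ℕ} (hq : q ≠ 0) {W₁ W₂ W : Type} [AddCommGroup W₁] [Module E W₁]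
    [FiniteDimensional E W₁] [AddCommGroup W₂]
    [Module E W₂] [FiniteDimensional E W₂] [AddCommGroup W] [Module E W] [FiniteDimensional E W]
    {Φ₁ : Module.End E W₁} {Φ₂ : Module.End E W₂}
    {Φ : Module.End E W} {H : ℕ → Type} [∀ r, AddCommGroup (H r)] [∀ r, Module E (H r)]
    [∀ r, FiniteDimensional E (H r)]
    {F : ∀ r, Module.End E (H r)} (h : IsThreefold q Φ₁ Φ₂ Φ H F) (h₁ : Φ₁.IsSemisimple)
    (h₂ : Φ₂.IsSemisimple) (hΦ : Φ.IsSemisimple) : ∀ r, (F r).IsSemisimple := by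
  intro r
  by_cases hr2 : r = 2
  · subst hr2
    obtain ⟨K, _, _, _, Ψ, hΨ, hF⟩ := h.two
    exact semisimple_of_induced hF (semisimple_prod (semisimple_permuted hq hΨ)
      (semisimple_prod h₁ h₂))
  by_cases hr3 : r = 3
  · subst hr3
    obtain ⟨K, _, _, _, Ψ, hΨ, hF⟩ := h.three
    exact semisimple_of_induced hF (semisimple_prod hΨ hΦ)
  by_cases hr4 : r = 4
  · subst hr4
    obtain ⟨K, _, _, _, Ψ, hΨ, hF⟩ := h.four
    exact semisimple_of_induced hF (semisimple_prod (semisimple_permuted (pow_ne_zero 2 hq) hΨ)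
      (semisimple_prod (Module.End.IsSemisimple_smul _ h₁) (Module.End.IsSemisimple_smul _ h₂)))
  · exact semisimple_of_small (h.other r hr2 hr3 hr4)

end

section

variable {κ : Type} [Field κ] [Fintype κ] (E : Type) [Field E]

/-- The Frobenius is semisimple on all cohomology groups of the fibre product of `S₁` and `S₂` (blown up
in its nodes). -/
def ProductSemisimple (S₁ S₂ : Surface κ) : Prop :=
  ∀ (W₁ W₂ W : Type) [AddCommGroup W₁] [Module E W₁] [FiniteDimensional E W₁] [AddCommGroup W₂]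
    [Module E W₂] [FiniteDimensional E W₂] [AddCommGroup W] [Module E W] [FiniteDimensional E W]
    (Φ₁ : Module.End E W₁) (B₁ : W₁ →ₗ[E] W₁ →ₗ[E] E) (Φ₂ : Module.End E W₂)
    (B₂ : W₂ →ₗ[E] W₂ →ₗ[E] E) (Φ : Module.End E W) (H : ℕ → Type) [∀ r, AddCommGroup (H r)]
    [∀ r, Module E (H r)] [∀ r, FiniteDimensional E (H r)] (F : ∀ r, Module.End E (H r)),
    IsCohomology S₁ Φ₁ B₁ → IsCohomology S₂ Φ₂ B₂ → IsTensor S₁ S₂ Φ →
    IsThreefold (Fintype.card κ) Φ₁ Φ₂ Φ H F → ∀ r, (F r).IsSemisimple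

/-- The Frobenius is semisimple on all cohomology groups of the fibre product of `S` with itself (blown
up in its nodes). -/
def SquareSemisimple (S : Surface κ) : Prop :=
  ∀ (W₁ W : Type) [AddCommGroup W₁] [Module E W₁] [FiniteDimensional E W₁]
    [AddCommGroup W] [Module E W] [FiniteDimensional E W]
    (Φ₁ : Module.End E W₁) (B₁ : W₁ →ₗ[E] W₁ →ₗ[E] E) (Φ : Module.End E W) (H : ℕ → Type)
    [∀ r, AddCommGroup (H r)] [∀ r, Module E (H r)] [∀ r, FiniteDimensional E (H r)]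
    (F : ∀ r, Module.End E (H r)),
    IsCohomology S Φ₁ B₁ → IsSymSquare S Φ →
    IsThreefold (Fintype.card κ) Φ₁ Φ₁ Φ H F → ∀ r, (F r).IsSemisimple

variable {E} [CharZero E] [IsAlgClosed E]

lemma semisimple_of_separable {W : Type} [AddCommGroup W] [Module E W] [FiniteDimensional E W]
    {Φ : Module.End E W} (h : Φ.charpoly.Separable) : Φ.IsSemisimple :=
  Module.End.isSemisimple_of_squarefree_aeval_eq_zero h.squarefree (LinearMap.aeval_self_charpoly Φ)

theorem product_semisimple {S₁ S₂ : Surface κ} (h₁ : HasSection S₁) (h₂ : HasSection S₂)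
    (hℓ : S₁.ℓ = S₂.ℓ) {d : Multiset ℕ} (hd : IsDegrees S₁ S₂ d)
    (ha₁ : Pool.Agent.R942.ES.IsAdmissible (Fintype.card κ) S₁.ℓ S₁.a S₁.b)
    (ha₂ : Pool.Agent.R942.ES.IsAdmissible (Fintype.card κ) S₂.ℓ S₂.a S₂.b)
    (ha : IsAdmissible (Fintype.card κ) S₁.ℓ 3 d) : ProductSemisimple E S₁ S₂ := by
  intro W₁ W₂ W _ _ _ _ _ _ _ _ _ Φ₁ B₁ Φ₂ B₂ Φ H _ _ _ F hC₁ hC₂ hΦ hF
  haveI : Fact S₁.ℓ.Prime := ⟨prime_of h₁⟩
  obtain ⟨R, hR, hsq⟩ := exists_reduction (card_ne_of h₁) (by norm_num) ha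
  exact threefold_semisimple Fintype.card_ne_zero hF (semisimple_of_admissible h₁ hC₁ ha₁)
    (semisimple_of_admissible h₂ hC₂ ha₂)
    (semisimple_of_separable (tensor_separable h₁ h₂ hℓ hd hΦ hR hsq))

theorem square_semisimple {S : Surface κ} (h : HasSection S)
    (ha₁ : Pool.Agent.R942.ES.IsAdmissible (Fintype.card κ) S.ℓ S.a S.b)
    (ha : IsAdmissible (Fintype.card κ) S.ℓ 2 (S.a + S.b)) : SquareSemisimple E S := by
  intro W₁ W _ _ _ _ _ _ Φ₁ B₁ Φ H _ _ _ F hC₁ hΦ hF
  haveI : Fact S.ℓ.Prime := ⟨prime_of h⟩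
  obtain ⟨R, hR, hsq⟩ := exists_reduction (card_ne_of h) (by norm_num) ha
  exact threefold_semisimple Fintype.card_ne_zero hF (semisimple_of_admissible h hC₁ ha₁)
    (semisimple_of_admissible h hC₁ ha₁)
    (semisimple_of_separable (square_separable h (isDegrees_self h) hΦ hR hsq))

end

end Pool.Agent.H84.FP
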